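import Pool.Graph.R_seed8.Helper569.FaultyFinal

/-!
# Faulty linear search: the exact value over cyclic monotone trajectories
-/

set_option autoImplicit false

open MeasureTheory
open scoped ENNReal

namespace Pool.Agent.KS6_61.FS

open Pool.Agent.Helper569.Faulty

variable {p c : ℝ}

/-- the geometric trajectory of ratio `2/(2-p)` -/
lemma cyc_upper (hp0 : 0 < p) (hp1 : p < 1) : ∃ y : ℕ → ℝ, IsTrajectory y ∧
    IsCyclicMonotone y ∧ competitiveRatio p y ≤ ENNReal.ofReal (8 + p ^ 2 / (2 - p)) := by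
  have hq0 : 0 < 1 - p := by linarith
  set r : ℝ := 2 / (2 - p) with hr
  have hr1 : 1 < r := by
    rw [hr, lt_div_iff₀ (by linarith)]
    linarith
  have hqr : (1 - p) * r < 1 := by
    rw [hr, ← mul_div_assoc, div_lt_one (by linarith)]
    linarith
  have hqr0 : 0 < (1 - p) * r := by positivity
  have hx0 := gx_pos hr1
  have hx2 := gx_lt hr1
  have hy : ∀ n, gy r (n + 1) = (-1) ^ n * gx r n := fun n => rfl
  have hgeo := (hasSum_geometric_of_lt_one hqr0.le hqr).mul_left (p * (2 / (r - 1) * r ^ 2))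
  have hsum := hgeo.add (hasSum_alt hp0 hp1)
  set c := p * (2 / (r - 1) * r ^ 2) * (1 - (1 - p) * r)⁻¹ + p / (2 - p) with hc
  have hr0 : 0 < r - 1 := by linarith
  have h2p0 : 0 < 2 - p := by linarith
  have hc0 : 0 ≤ c := by
    have : 0 < 1 - (1 - p) * r := by linarith
    positivity
  refine ⟨gy r, isTrajectory_cyc hx0 hx2 rfl hy, ⟨gx r, hx0, hx2, Or.inl hy⟩, ?_⟩
  have hcv : 8 + p ^ 2 / (2 - p) = p * c := by
    have h2p : (2 - p) ≠ 0 := by linarith
    have e1 : r - 1 = p / (2 - p) := by rw [hr]; field_simp; ring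
    have e2 : 1 - (1 - p) * r = p / (2 - p) := by rw [hr]; field_simp; ring
    rw [hc, e1, e2, hr]
    field_simp
    ring
  rw [hcv, ratio_le_iff hp0 hc0]
  -- bound for one side
  have main : ∀ j0 : ℕ, (j0 = 0 ∨ j0 = 1) → ∀ g : ℝ, 1 ≤ g →
      expectedTime p (gy r) ((-1) ^ j0 * g) ≤ ENNReal.ofReal (c * g) := by
    intro j0 hj0 g hg
    have hstart : gx r j0 ≤ g := by
      have : gx r j0 ≤ 1 := by
        unfold gx
        rw [div_le_one (by positivity)]
        exact pow_le_pow_right₀ hr1.le (by omega)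
      linarith
    have hex : ∃ m, g < gx r (j0 + 2 * m) := by
      obtain ⟨m, hm⟩ := pow_unbounded_of_one_lt (g * r ^ 2) hr1
      refine ⟨m, ?_⟩
      unfold gx
      rw [lt_div_iff₀ (by positivity)]
      exact hm.trans_le (pow_le_pow_right₀ hr1.le (by omega))
    classical
    have hspec := Nat.find_spec hex
    have hne : Nat.find hex ≠ 0 := by
      intro h
      rw [h, mul_zero, add_zero] at hspec
      linarith
    obtain ⟨m, hm⟩ := Nat.exists_eq_succ_of_ne_zero hne
    have hmin : gx r (j0 + 2 * m) ≤ g := by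
      by_contra h
      push Not at h
      have := Nat.find_min' hex h
      omega
    rw [hm, show j0 + 2 * m.succ = j0 + 2 * m + 2 by rw [Nat.succ_eq_add_one]; ring] at hspec
    set i := j0 + 2 * m with hi
    have hg0 : 0 < g := by linarith
    have h1 := expectedTime_le hp0 hp1.le (tau_strictMono hx0 hx2 hg0 hspec)
      (isAt_cyc_passes hx0 hx2 rfl hy hg0 hspec)
    rw [pow_parity (show i % 2 = j0 % 2 by omega)] at h1
    refine h1.trans ?_
    have hb : ∀ k, tau (gx r) i g k ≤ (2 / (r - 1) * r ^ 2 * r ^ k + (-1) ^ k) * g := by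
      intro k
      unfold tau
      have h2 := S_gx_le hr1 (i + 2 + k)
      have h3 : gx r (i + 2 + k) = r ^ 2 * r ^ k * gx r i := by
        unfold gx
        rw [pow_add, pow_add]
        ring
      have h5 : 2 / (r - 1) * gx r (i + 2 + k) ≤ 2 / (r - 1) * r ^ 2 * r ^ k * g := by
        rw [h3]
        calc 2 / (r - 1) * (r ^ 2 * r ^ k * gx r i) = (2 / (r - 1) * r ^ 2 * r ^ k) * gx r i := by
              ring
          _ ≤ (2 / (r - 1) * r ^ 2 * r ^ k) * g := by
              apply mul_le_mul_of_nonneg_left hmin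
              positivity
      linarith
    have hT : HasSum (fun k : ℕ => p * (1 - p) ^ k *
        ((2 / (r - 1) * r ^ 2 * r ^ k + (-1) ^ k) * g)) (c * g) := by
      have h6 := hsum.mul_right g
      have e1 : (fun k : ℕ => p * (1 - p) ^ k * ((2 / (r - 1) * r ^ 2 * r ^ k + (-1) ^ k) * g)) =
          fun k : ℕ => (p * (2 / (r - 1) * r ^ 2) * ((1 - p) * r) ^ k +
            p * (1 - p) ^ k * (-1) ^ k) * g := by
        funext k
        rw [mul_pow]
        ring
      rw [e1]
      exact h6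
    refine ofReal_sum_le hp0 hp1 hb (fun k => ?_) hT
    have h1 := (tau_strictMono hx0 hx2 hg0 hspec).monotone (Nat.zero_le k)
    have h2 := hb k
    have h3 : 0 ≤ tau (gx r) i g 0 := by
      unfold tau
      have := S_nonneg hx0 (i + 2 + 0)
      simp only [pow_zero, one_mul]
      linarith
    linarith
  intro h hh
  rcases le_total 0 h with h1 | h1
  · have h2 := main 0 (Or.inl rfl) |h| hh
    rw [pow_zero, one_mul] at h2
    rwa [abs_of_nonneg h1] at h2 ⊢
  · have h2 := main 1 (Or.inr rfl) |h| hh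
    rw [pow_one, abs_of_nonpos h1] at h2
    rw [abs_of_nonpos h1]
    convert h2 using 2
    ring

/-- every cyclic monotone trajectory has `c ≥ 8/p + p/(2-p)` -/
lemma cyc_lower (hp0 : 0 < p) (hp1 : p < 1) (hc : 0 ≤ c) {y : ℕ → ℝ}
    (hyt : IsTrajectory y) (hym : IsCyclicMonotone y)
    (hr : competitiveRatio p y ≤ ENNReal.ofReal (p * c)) : 8 + p ^ 2 / (2 - p) ≤ p * c := by
  obtain ⟨x, hx0, hx2, hsign⟩ := hym
  obtain ⟨σ, hσ, hy⟩ : ∃ σ : ℝ, (σ = 1 ∨ σ = -1) ∧ ∀ n, y (n + 1) = σ * (-1) ^ n * x n := by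
    rcases hsign with h | h
    · exact ⟨1, Or.inl rfl, fun n => by rw [h n]; ring⟩
    · exact ⟨-1, Or.inr rfl, fun n => by rw [h n]; ring⟩
  have hy0 := hyt.1
  have hq0 : 0 < 1 - p := by linarith
  by_contra hcon
  push Not at hcon
  set q := 1 - p with hq
  set κ := c - p / (2 - p) with hκ
  have h2p : 0 < 2 - p := by linarith
  have hκlt : p * κ < 8 := by
    have : p * κ = p * c - p ^ 2 / (2 - p) := by
      rw [hκ]; ring
    linarith
  -- the starting index
  obtain ⟨n0, hn0, hxn0⟩ := unbounded hp0 hp1 hc hx0 hσ hy0 hy hr 0 le_rfl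
  obtain ⟨n1, hn1, hxn1⟩ := unbounded hp0 hp1 hc hx0 hσ hy0 hy hr 1 le_rfl
  set N := 2 * (max n0 n1) + 2 with hN
  have hx1 : ∀ i, N ≤ i → 1 ≤ x i := by
    intro i hi
    rcases Nat.even_or_odd i with h | h
    · obtain ⟨m, hm⟩ := h
      exact hxn0.trans (x_mono_parity hx2 (by omega) (by omega))
    · obtain ⟨m, hm⟩ := h
      exact hxn1.trans (x_mono_parity hx2 (by omega) (by omega))
  have key : ∀ i, N ≤ i → Summable (fun k : ℕ => p * q ^ k * S x (i + 2 + k)) ∧
      ∑' k : ℕ, p * q ^ k * S x (i + 2 + k) ≤ κ * x i := fun i hi =>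
    key_bound hp0 hp1 hc hx0 hx2 hσ hy0 hy hr (hx1 i hi)
  have hκ0 : 0 < κ := by
    obtain ⟨h1, h2⟩ := key N le_rfl
    have h3 : 0 < ∑' k : ℕ, p * q ^ k * S x (N + 2 + k) := by
      apply h1.tsum_pos (fun k => ?_) 0
      · have h4 : 0 < S x (N + 2 + 0) := by
          rw [show N + 2 + 0 = N + 1 + 1 by ring, S_succ]
          have := S_nonneg hx0 (N + 1)
          have := hx0 (N + 1)
          linarith
        positivity
      · have := S_nonneg hx0 (N + 2 + k)
        positivity
    by_contra hneg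
    push Not at hneg
    have := mul_nonpos_of_nonpos_of_nonneg hneg (hx0 N).le
    linarith
  set D : ℕ → ℝ := fun i => ∑' k : ℕ, p * q ^ k * S x (i + k) with hD
  have hDs : ∀ i, N + 2 ≤ i → Summable (fun k : ℕ => p * q ^ k * S x (i + k)) := by
    intro i hi
    obtain ⟨j, rfl⟩ : ∃ j, i = j + 2 := ⟨i - 2, by omega⟩
    exact (key j (by omega)).1
  have hD1 : ∀ i, N ≤ i → D (i + 2) ≤ κ * x i := fun i hi => (key i hi).2
  have hDrec : ∀ i, N + 2 ≤ i → D i = p * S x i + q * D (i + 1) := by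
    intro i hi
    have h1 := (hDs i hi).hasSum
    rw [← hasSum_nat_add_iff' 1] at h1
    have h2 := (hDs (i + 1) (by omega)).hasSum.mul_left q
    have e : (fun k : ℕ => p * q ^ (k + 1) * S x (i + (k + 1))) =
        fun k : ℕ => q * (p * q ^ k * S x (i + 1 + k)) := by
      funext k
      rw [pow_succ, show i + (k + 1) = i + 1 + k by ring]
      ring
    rw [e] at h1
    have h3 := h1.unique h2
    simp only [Finset.range_one, Finset.sum_singleton, pow_zero, mul_one, add_zero] at h3
    change D i - p * S x i = q * D (i + 1) at h3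
    linarith
  have hDmono : ∀ i, N + 2 ≤ i → D i ≤ D (i + 1) := by
    intro i hi
    apply (hDs i hi).tsum_le_tsum _ (hDs (i + 1) (by omega))
    intro k
    apply mul_le_mul_of_nonneg_left (S_mono hx0 (by omega)) (by positivity)
  have hDpos : ∀ i, N + 2 ≤ i → 0 < D i := by
    intro i hi
    have h1 := hDs i hi
    apply h1.tsum_pos (fun k => ?_) 0
    · have h4 : 0 < S x (i + 0) := by
        obtain ⟨j, rfl⟩ : ∃ j, i = j + 1 := ⟨i - 1, by omega⟩
        rw [add_zero, S_succ]
        have := S_nonneg hx0 j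
        have := hx0 j
        linarith
      positivity
    · have := S_nonneg hx0 (i + k)
      positivity
  -- the recursion
  have hrec : ∀ i, N + 2 ≤ i → (2 * p + κ * q) * D (i + 2) ≤ κ * ((1 + q) * D (i + 1) - D i) := by
    intro i hi
    have h1 := hD1 i (by omega)
    have h2 := hDrec i hi
    have h3 := hDrec (i + 1) (by omega)
    have h4 := S_succ x i
    have h5 : 2 * (p * (κ * x i)) = κ * ((D (i + 1) - q * D (i + 1 + 1)) - (D i - q * D (i + 1))) := by
      rw [h2]
      have : D (i + 1) - q * D (i + 1 + 1) = p * S x (i + 1) := by linarith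
      rw [this, h4]
      ring
    have h6 : p * D (i + 2) ≤ p * (κ * x i) := mul_le_mul_of_nonneg_left h1 hp0.le
    have e : D (i + 1 + 1) = D (i + 2) := rfl
    rw [e] at h5
    nlinarith
  set θ := κ * (1 + q) ^ 2 / (4 * (2 * p + κ * q)) with hθ
  have hden : 0 < 2 * p + κ * q := by positivity
  have hθ1 : θ < 1 := by
    rw [hθ, div_lt_one (by positivity)]
    have h1 : (1 + q) ^ 2 = p ^ 2 + 4 * q := by rw [hq]; ring
    rw [h1]
    nlinarith
  have hθ0 : 0 ≤ θ := by positivity
  have hrat : ∀ i, N + 2 ≤ i → D (i + 2) / D (i + 1) ≤ θ * (D (i + 1) / D i) := by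
    intro i hi
    have p0 := hDpos i hi
    have p1 := hDpos (i + 1) (by omega)
    have p2 := hDpos (i + 2) (by omega)
    rw [div_le_iff₀ p1, hθ]
    have h1 := hrec i hi
    have h2 : κ * (1 + q) ^ 2 / (4 * (2 * p + κ * q)) * (D (i + 1) / D i) * D (i + 1) =
        κ * (1 + q) ^ 2 * D (i + 1) ^ 2 / ((4 * (2 * p + κ * q)) * D i) := by
      field_simp
    rw [h2, le_div_iff₀ (by positivity)]
    have h3 : (2 * p + κ * q) * D (i + 2) * D i ≤ κ * ((1 + q) * D (i + 1) - D i) * D i :=
      mul_le_mul_of_nonneg_right h1 p0.le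
    have h4 : κ * ((1 + q) * D (i + 1) - D i) * D i * 4 ≤ κ * (1 + q) ^ 2 * D (i + 1) ^ 2 := by
      have : 0 ≤ κ * ((1 + q) * D (i + 1) - 2 * D i) ^ 2 := by positivity
      nlinarith
    nlinarith
  have hpow : ∀ k, D (N + 2 + k + 1) / D (N + 2 + k) ≤ θ ^ k * (D (N + 2 + 1) / D (N + 2)) := by
    intro k
    induction k with
    | zero => simp
    | succ k ih =>
      have h1 := hrat (N + 2 + k) (by omega)
      calc D (N + 2 + (k + 1) + 1) / D (N + 2 + (k + 1)) ≤
          θ * (D (N + 2 + k + 1) / D (N + 2 + k)) := h1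
        _ ≤ θ * (θ ^ k * (D (N + 2 + 1) / D (N + 2))) := mul_le_mul_of_nonneg_left ih hθ0
        _ = θ ^ (k + 1) * (D (N + 2 + 1) / D (N + 2)) := by rw [pow_succ]; ring
  have hge : ∀ k, 1 ≤ D (N + 2 + k + 1) / D (N + 2 + k) := by
    intro k
    rw [one_le_div (hDpos _ (by omega))]
    exact hDmono _ (by omega)
  have hlim : Filter.Tendsto (fun k : ℕ => θ ^ k * (D (N + 2 + 1) / D (N + 2))) Filter.atTop
      (nhds (0 * (D (N + 2 + 1) / D (N + 2)))) :=
    (tendsto_pow_atTop_nhds_zero_of_lt_one hθ0 hθ1).mul_const _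
  rw [zero_mul] at hlim
  have := ge_of_tendsto' hlim (fun k => (hge k).trans (hpow k))
  linarith

/-- the exact value of the infimum over the cyclic monotone trajectories -/
theorem cyc_value (hp0 : 0 < p) (hp1 : p < 1) :
    (⨅ (y : ℕ → ℝ) (_ : IsTrajectory y) (_ : IsCyclicMonotone y), competitiveRatio p y) =
      ENNReal.ofReal (8 + p ^ 2 / (2 - p)) := by
  apply le_antisymm
  · obtain ⟨y, h1, h2, h3⟩ := cyc_upper hp0 hp1
    refine le_trans ?_ h3
    exact iInf_le_of_le y (iInf_le_of_le h1 (iInf_le_of_le h2 le_rfl))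
  · refine le_iInf fun y => le_iInf fun hyt => le_iInf fun hym => ?_
    by_cases htop : competitiveRatio p y = ⊤
    · rw [htop]; exact le_top
    · have h1 : competitiveRatio p y = ENNReal.ofReal (p * ((competitiveRatio p y).toReal / p)) := by
        rw [mul_div_cancel₀ _ hp0.ne', ENNReal.ofReal_toReal htop]
      have h2 := cyc_lower hp0 hp1 (c := (competitiveRatio p y).toReal / p) (by positivity)
        hyt hym h1.le
      rw [h1]
      exact ENNReal.ofReal_le_ofReal h2

end Pool.Agent.KS6_61.FS
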