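import Pool.Graph.R_seed8.Helper569.FaultyCyc

/-!
# Faulty linear search: a universal lower bound for the competitive ratio
-/

set_option autoImplicit false

open MeasureTheory
open scoped ENNReal

namespace Pool.Agent.KS6_61.FS

open Pool.Agent.Helper569.Faulty

variable {p c : ℝ} {y : ℕ → ℝ}

lemma turnTime_mono (y : ℕ → ℝ) : Monotone (turnTime y) := by
  apply monotone_nat_of_le_succ
  intro n
  rw [turnTime_succ]
  linarith [abs_nonneg (y (n + 1) - y n)]

lemma turnTime_zero (y : ℕ → ℝ) : turnTime y 0 = 0 := by simp [turnTime]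

lemma turnTime_unbounded (hy : ¬ Summable fun i => |y (i + 1) - y i|) (M : ℝ) :
    ∃ n, M ≤ turnTime y n := by
  have h := (not_summable_iff_tendsto_nat_atTop_of_nonneg
    (f := fun i => |y (i + 1) - y i|) (fun i => abs_nonneg _)).1 hy
  obtain ⟨n, hn⟩ := (h.eventually_ge_atTop M).exists
  exact ⟨n, hn⟩

lemma abs_le_turnTime (hy0 : y 0 = 0) (n : ℕ) : |y n| ≤ turnTime y n := by
  induction n with
  | zero => rw [hy0, turnTime_zero, abs_zero]
  | succ n ih =>
    rw [turnTime_succ]
    have : |y (n + 1)| ≤ |y n| + |y (n + 1) - y n| := by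
      calc |y (n + 1)| = |y n + (y (n + 1) - y n)| := by ring_nf
        _ ≤ _ := abs_add_le _ _
    linarith

/-- the time at which the `i`-th segment passes over `h` -/
noncomputable def segTime (y : ℕ → ℝ) (i : ℕ) (h : ℝ) : ℝ := turnTime y i + |h - y i|

lemma abs_le_segTime (hy0 : y 0 = 0) (i : ℕ) (h : ℝ) : |h| ≤ segTime y i h := by
  unfold segTime
  have h1 := abs_le_turnTime hy0 i
  have : |h| ≤ |y i| + |h - y i| := by
    calc |h| = |y i + (h - y i)| := by ring_nf
      _ ≤ _ := abs_add_le _ _
  linarith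

lemma segTime_le {i : ℕ} {h : ℝ} (hh : h ∈ Set.uIcc (y i) (y (i + 1))) :
    segTime y i h ≤ turnTime y (i + 1) := by
  rw [turnTime_succ]
  unfold segTime
  have : |h - y i| ≤ |y (i + 1) - y i| := by
    rw [Set.mem_uIcc] at hh
    rcases hh with ⟨h1, h2⟩ | ⟨h1, h2⟩
    · rw [abs_of_nonneg (by linarith), abs_of_nonneg (by linarith)]; linarith
    · rw [abs_of_nonpos (by linarith), abs_of_nonpos (by linarith)]; linarith
  linarith

/-- the weight of the passes over `h` in the first `n` segments -/
noncomputable def G (y : ℕ → ℝ) (n : ℕ) (h : ℝ) : ℝ :=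
  ∑ i ∈ Finset.range n,
    (Set.uIcc (y i) (y (i + 1))).indicator (fun h => 1 / max 1 (segTime y i h)) h

open Classical in
/-- the pass times in the first `n` segments -/
noncomputable def passes (y : ℕ → ℝ) (n : ℕ) (h : ℝ) : Finset ℝ :=
  ((Finset.range n).filter (fun i => h ∈ Set.uIcc (y i) (y (i + 1)))).image
    (fun i => segTime y i h)

lemma sum_passes_le (hy0 : y 0 = 0) {n : ℕ} {h : ℝ} (hh : 1 ≤ |h|) :
    ∑ s ∈ passes y n h, 1 / s ≤ G y n h := by
  classical
  unfold passes G
  have h1 : ∑ s ∈ ((Finset.range n).filter (fun i => h ∈ Set.uIcc (y i) (y (i + 1)))).image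
      (fun i => segTime y i h), 1 / s ≤
      ∑ i ∈ (Finset.range n).filter (fun i => h ∈ Set.uIcc (y i) (y (i + 1))),
        1 / segTime y i h := by
    apply Finset.sum_image_le_of_nonneg (f := fun s : ℝ => 1 / s)
    intro s hs
    rw [Finset.mem_image] at hs
    obtain ⟨i, _, rfl⟩ := hs
    have := abs_le_segTime hy0 i h
    exact one_div_nonneg.2 (by linarith)
  refine h1.trans ?_
  rw [Finset.sum_filter]
  apply Finset.sum_le_sum
  intro i _
  by_cases hi : h ∈ Set.uIcc (y i) (y (i + 1))
  · rw [if_pos hi, Set.indicator_of_mem hi]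
    have := abs_le_segTime hy0 i h
    rw [max_eq_right (by linarith)]
  · rw [if_neg hi, Set.indicator_of_notMem hi]

lemma mem_passes {n : ℕ} {h s : ℝ} (hs : IsAt y s h) (hlt : s < turnTime y n) :
    s ∈ passes y n h := by
  classical
  obtain ⟨i, hi, rfl⟩ := isAt_iff y hs
  unfold passes
  rw [Finset.mem_image]
  refine ⟨i, ?_, rfl⟩
  rw [Finset.mem_filter, Finset.mem_range]
  refine ⟨?_, hi⟩
  by_contra hn
  push Not at hn
  have := turnTime_mono y hn
  linarith [abs_nonneg (h - y i)]

lemma passes_le {n : ℕ} {h s : ℝ} (hs : s ∈ passes y n h) : s ≤ turnTime y n := by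
  classical
  unfold passes at hs
  rw [Finset.mem_image] at hs
  obtain ⟨i, hi, rfl⟩ := hs
  rw [Finset.mem_filter, Finset.mem_range] at hi
  exact (segTime_le hi.2).trans (turnTime_mono y (by omega))

lemma passes_ge (hy0 : y 0 = 0) {n : ℕ} {h s : ℝ} (hs : s ∈ passes y n h) : |h| ≤ s := by
  classical
  unfold passes at hs
  rw [Finset.mem_image] at hs
  obtain ⟨i, hi, rfl⟩ := hs
  exact abs_le_segTime hy0 i h

/-- lower bound for the pass times -/
lemma exists_seq (hy0 : y 0 = 0) {n : ℕ} {h : ℝ} (hh : 1 ≤ |h|) (hn : 1 ≤ turnTime y n) :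
    ∃ u : ℕ → ℝ, (∀ k, 1 ≤ u k) ∧ (∀ k, ENNReal.ofReal (u k) ≤ passTime y h (k + 1)) ∧
      ∀ K : ℕ, ∑ k ∈ Finset.range K, 1 / u k ≤ G y n h + K / turnTime y n := by
  classical
  set F := passes y n h with hF
  set m := F.card with hm
  set e := F.orderEmbOfFin hm.symm with he
  set u : ℕ → ℝ := fun k => if hk : k < m then e ⟨k, hk⟩ else turnTime y n with hu
  have he_mem : ∀ j, e j ∈ F := fun j => Finset.orderEmbOfFin_mem F _ j
  have hu_le : ∀ k, u k ≤ turnTime y n := by
    intro k
    simp only [hu]
    split_ifs with hk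
    · exact passes_le (he_mem _)
    · exact le_rfl
  have hu1 : ∀ k, 1 ≤ u k := by
    intro k
    simp only [hu]
    split_ifs with hk
    · exact hh.trans (passes_ge hy0 (he_mem _))
    · exact hn
  refine ⟨u, hu1, ?_, ?_⟩
  · intro k
    unfold passTime
    refine le_iInf₂ fun t ht => ?_
    apply ENNReal.ofReal_le_ofReal
    by_contra hlt
    rw [not_le] at hlt
    have hlt2 : t < turnTime y n := hlt.trans_le (hu_le k)
    have h1 : {s : ℝ | s ≤ t ∧ IsAt y s h} ⊆
        (((Finset.univ.filter (fun j : Fin m => (j : ℕ) < k)).image e : Finset ℝ) : Set ℝ) := by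
      rintro s ⟨hs1, hs2⟩
      have hsF : s ∈ F := mem_passes hs2 (hs1.trans_lt hlt2)
      have : s ∈ Set.range e := by
        rw [he, Finset.range_orderEmbOfFin]
        exact hsF
      obtain ⟨j, rfl⟩ := this
      rw [Finset.mem_coe, Finset.mem_image]
      refine ⟨j, ?_, rfl⟩
      rw [Finset.mem_filter]
      refine ⟨Finset.mem_univ _, ?_⟩
      by_contra hjk
      push Not at hjk
      have hkm : k < m := hjk.trans_lt j.2
      have h2 : u k = e ⟨k, hkm⟩ := by simp only [hu]; rw [dif_pos hkm]
      have h3 : e ⟨k, hkm⟩ ≤ e j := e.monotone hjk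
      linarith
    have h2 := ht.trans (Set.encard_le_encard h1)
    rw [Set.encard_coe_eq_coe_finsetCard] at h2
    have h3 : ((Finset.univ.filter (fun j : Fin m => (j : ℕ) < k)).image e).card ≤ k := by
      refine Finset.card_image_le.trans ?_
      have : (Finset.univ.filter (fun j : Fin m => (j : ℕ) < k)).card =
          ((Finset.univ.filter (fun j : Fin m => (j : ℕ) < k)).image
            (fun j : Fin m => (j : ℕ))).card :=
        (Finset.card_image_of_injective _ Fin.val_injective).symm
      rw [this]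
      calc _ ≤ (Finset.range k).card := by
            apply Finset.card_le_card
            intro a ha
            rw [Finset.mem_image] at ha
            obtain ⟨j, hj, rfl⟩ := ha
            rw [Finset.mem_filter] at hj
            exact Finset.mem_range.2 hj.2
        _ = k := Finset.card_range k
    have h4 : k + 1 ≤ ((Finset.univ.filter (fun j : Fin m => (j : ℕ) < k)).image e).card := by
      exact_mod_cast h2
    omega
  · intro K
    have hn0 : 0 < turnTime y n := by linarith
    have h1 : ∑ k ∈ Finset.range K, 1 / u k ≤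
        ∑ k ∈ Finset.range K, ((if hk : k < m then 1 / e ⟨k, hk⟩ else 0) + 1 / turnTime y n) := by
      apply Finset.sum_le_sum
      intro k _
      simp only [hu]
      split_ifs with hk
      · have : 0 ≤ 1 / turnTime y n := by positivity
        linarith
      · linarith
    refine h1.trans ?_
    rw [Finset.sum_add_distrib, Finset.sum_const, Finset.card_range, nsmul_eq_mul, mul_one_div]
    have h2 : ∑ k ∈ Finset.range K, (if hk : k < m then 1 / e ⟨k, hk⟩ else 0) ≤
        ∑ s ∈ F, 1 / s := by
      have hnn : ∀ k, 0 ≤ (if hk : k < m then 1 / e ⟨k, hk⟩ else 0) := by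
        intro k
        split_ifs with hk
        · have := passes_ge hy0 (he_mem ⟨k, hk⟩)
          exact one_div_nonneg.2 (by linarith)
        · exact le_rfl
      have h3 : ∑ k ∈ Finset.range K, (if hk : k < m then 1 / e ⟨k, hk⟩ else 0) ≤
          ∑ k ∈ Finset.range (max K m), (if hk : k < m then 1 / e ⟨k, hk⟩ else 0) :=
        Finset.sum_le_sum_of_subset_of_nonneg
          (Finset.range_mono (le_max_left _ _)) (fun k _ _ => hnn k)
      refine h3.trans (le_of_eq ?_)
      have h4 : ∑ k ∈ Finset.range (max K m), (if hk : k < m then 1 / e ⟨k, hk⟩ else 0) =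
          ∑ k ∈ Finset.range m, (if hk : k < m then 1 / e ⟨k, hk⟩ else 0) := by
        symm
        apply Finset.sum_subset (Finset.range_mono (le_max_right _ _))
        intro k _ hk
        rw [Finset.mem_range] at hk
        rw [dif_neg hk]
      rw [h4, Finset.sum_range]
      have h5 : ∑ j : Fin m, (if hk : (j : ℕ) < m then 1 / e ⟨j, hk⟩ else 0) =
          ∑ j : Fin m, 1 / e j := by
        apply Finset.sum_congr rfl
        intro j _
        rw [dif_pos j.2]
      rw [h5]
      have h6 : F = Finset.univ.image e := by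
        rw [he]
        exact (Finset.image_orderEmbOfFin_univ F _).symm
      conv_rhs => rw [h6]
      rw [Finset.sum_image (fun a _ b _ hab => e.injective hab)]
    have h7 := sum_passes_le (n := n) hy0 hh
    linarith

/-- the weight function in the time variable -/
noncomputable def phi (t : ℝ) : ℝ := 1 / max 1 t

lemma phi_cont : Continuous phi := by
  unfold phi
  apply Continuous.div continuous_const (by fun_prop)
  intro t
  have := le_max_left 1 t
  intro h
  linarith

lemma phi_nonneg (t : ℝ) : 0 ≤ phi t := by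
  unfold phi
  have := le_max_left 1 t
  exact one_div_nonneg.2 (by linarith)

lemma G_integrable (y : ℕ → ℝ) (n : ℕ) : Integrable (G y n) := by
  unfold G
  apply integrable_finsetSum
  intro i _
  apply IntegrableOn.integrable_indicator _ measurableSet_uIcc
  apply ContinuousOn.integrableOn_compact isCompact_uIcc
  have : Continuous (fun h => 1 / max 1 (segTime y i h)) := by
    have h1 : Continuous (fun h => segTime y i h) := by
      unfold segTime
      fun_prop
    exact phi_cont.comp h1
  exact this.continuousOn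

lemma G_nonneg (y : ℕ → ℝ) (n : ℕ) (h : ℝ) : 0 ≤ G y n h := by
  unfold G
  apply Finset.sum_nonneg
  intro i _
  apply Set.indicator_nonneg
  intro x _
  exact phi_nonneg _

lemma integral_seg (y : ℕ → ℝ) (i : ℕ) :
    ∫ h, (Set.uIcc (y i) (y (i + 1))).indicator (fun h => 1 / max 1 (segTime y i h)) h =
      ∫ t in (turnTime y i)..(turnTime y (i + 1)), phi t := by
  rw [integral_indicator measurableSet_uIcc]
  rcases le_total (y i) (y (i + 1)) with h | h
  · rw [Set.uIcc_of_le h, integral_Icc_eq_integral_Ioc, ← intervalIntegral.integral_of_le h]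
    have e1 : ∫ x in (y i)..(y (i + 1)), 1 / max 1 (segTime y i x) =
        ∫ x in (y i)..(y (i + 1)), phi (x + (turnTime y i - y i)) := by
      apply intervalIntegral.integral_congr
      intro x hx
      rw [Set.uIcc_of_le h] at hx
      have : x - y i ≥ 0 := by linarith [hx.1]
      simp only [phi, segTime]
      rw [abs_of_nonneg this]
      ring_nf
    rw [e1, intervalIntegral.integral_comp_add_right, turnTime_succ,
      abs_of_nonneg (by linarith)]
    congr 1 <;> ring
  · rw [Set.uIcc_of_ge h, integral_Icc_eq_integral_Ioc, ← intervalIntegral.integral_of_le h]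
    have e1 : ∫ x in (y (i + 1))..(y i), 1 / max 1 (segTime y i x) =
        ∫ x in (y (i + 1))..(y i), phi ((turnTime y i + y i) - x) := by
      apply intervalIntegral.integral_congr
      intro x hx
      rw [Set.uIcc_of_le h] at hx
      have : x - y i ≤ 0 := by linarith [hx.2]
      simp only [phi, segTime]
      rw [abs_of_nonpos this]
      ring_nf
    rw [e1, intervalIntegral.integral_comp_sub_left, turnTime_succ,
      abs_of_nonpos (by linarith)]
    congr 1 <;> ring

lemma integral_G (y : ℕ → ℝ) {n : ℕ} (hn : 1 ≤ turnTime y n) :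
    ∫ h, G y n h = 1 + Real.log (turnTime y n) := by
  unfold G
  rw [integral_finsetSum]
  · have h1 : ∀ i ∈ Finset.range n,
        ∫ h, (Set.uIcc (y i) (y (i + 1))).indicator (fun h => 1 / max 1 (segTime y i h)) h =
          ∫ t in (turnTime y i)..(turnTime y (i + 1)), phi t := fun i _ => integral_seg y i
    rw [Finset.sum_congr rfl h1,
      intervalIntegral.sum_integral_adjacent_intervals
        (fun k _ => phi_cont.intervalIntegrable _ _), turnTime_zero,
      ← intervalIntegral.integral_add_adjacent_intervals (b := 1)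
        (phi_cont.intervalIntegrable _ _) (phi_cont.intervalIntegrable _ _)]
    have e1 : ∫ x in (0 : ℝ)..1, phi x = 1 := by
      have : ∫ x in (0 : ℝ)..1, phi x = ∫ x in (0 : ℝ)..1, (1 : ℝ) := by
        apply intervalIntegral.integral_congr
        intro x hx
        rw [Set.uIcc_of_le zero_le_one] at hx
        simp only [phi]
        rw [max_eq_left hx.2, one_div_one]
      rw [this]
      simp
    have e2 : ∫ x in (1 : ℝ)..(turnTime y n), phi x = Real.log (turnTime y n) := by
      have : ∫ x in (1 : ℝ)..(turnTime y n), phi x = ∫ x in (1 : ℝ)..(turnTime y n), 1 / x := by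
        apply intervalIntegral.integral_congr
        intro x hx
        rw [Set.uIcc_of_le hn] at hx
        simp only [phi]
        rw [max_eq_right hx.1]
      rw [this, integral_one_div_of_pos one_pos (by linarith), div_one]
    rw [e1, e2]
  · intro i _
    apply IntegrableOn.integrable_indicator _ measurableSet_uIcc
    apply ContinuousOn.integrableOn_compact isCompact_uIcc
    have : Continuous (fun h => 1 / max 1 (segTime y i h)) := by
      have h1 : Continuous (fun h => segTime y i h) := by
        unfold segTime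
        fun_prop
      exact phi_cont.comp h1
    exact this.continuousOn

/-- the pointwise inequality -/
lemma pointwise (hp0 : 0 < p) (hp1 : p < 1) (hc : 0 ≤ c) (hy0 : y 0 = 0) {n : ℕ}
    (hn : 1 ≤ turnTime y n) {h : ℝ} (hh : 1 ≤ |h|)
    (hE : expectedTime p y h ≤ ENNReal.ofReal (c * |h|)) (K : ℕ) {σ : ℝ}
    (hσ1 : σ < 1) (hσ : σ ^ 2 = 1 - p) :
    (4 * p / (1 - σ) * ∑ k ∈ Finset.range K, σ ^ k - c) / |h| ≤
      4 * p / (1 - σ) ^ 2 * (G y n h + K / turnTime y n) := by
  obtain ⟨u, hu1, hu2, hu3⟩ := exists_seq hy0 hh hn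
  have hh0 : 0 < |h| := by linarith
  have hq0 : 0 < 1 - p := by linarith
  have h1s : 0 < 1 - σ := by linarith
  -- the expected time
  have h1 : ∑ k ∈ Finset.range K, p * σ ^ (2 * k) * u k ≤ c * |h| := by
    rw [expectedTime_eq hp0 hp1.le] at hE
    have h2 : ∑ k ∈ Finset.range K, ENNReal.ofReal (p * (1 - p) ^ k * u k) ≤
        ENNReal.ofReal (c * |h|) := by
      refine le_trans ?_ hE
      refine le_trans ?_ (ENNReal.sum_le_tsum (Finset.range K))
      apply Finset.sum_le_sum
      intro k _
      rw [ENNReal.ofReal_mul (by positivity)]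
      exact mul_le_mul_right (hu2 k) _
    rw [← ENNReal.ofReal_sum_of_nonneg] at h2
    · have h3 := (ENNReal.ofReal_le_ofReal_iff (by positivity)).1 h2
      refine le_trans (le_of_eq ?_) h3
      apply Finset.sum_congr rfl
      intro k _
      rw [pow_mul, hσ]
    · intro k _
      have := hu1 k
      positivity
  -- arithmetic-geometric mean inequality
  have h2 : ∀ k, 4 * p / (1 - σ) * σ ^ k * |h| ≤
      p * σ ^ (2 * k) * u k + 4 * p / (1 - σ) ^ 2 * |h| ^ 2 * (1 / u k) := by
    intro k
    have hu := hu1 k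
    have hu0 : 0 < u k := by linarith
    have h3 : p * σ ^ (2 * k) * u k + 4 * p / (1 - σ) ^ 2 * |h| ^ 2 * (1 / u k) -
        4 * p / (1 - σ) * σ ^ k * |h| =
        p / u k * (σ ^ k * u k - 2 * |h| / (1 - σ)) ^ 2 := by
      rw [mul_comm 2 k, pow_mul]
      field_simp
      ring
    have h4 : 0 ≤ p / u k * (σ ^ k * u k - 2 * |h| / (1 - σ)) ^ 2 := by positivity
    linarith
  have h3 : 4 * p / (1 - σ) * (∑ k ∈ Finset.range K, σ ^ k) * |h| ≤
      c * |h| + 4 * p / (1 - σ) ^ 2 * |h| ^ 2 * (∑ k ∈ Finset.range K, 1 / u k) := by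
    calc 4 * p / (1 - σ) * (∑ k ∈ Finset.range K, σ ^ k) * |h| =
        ∑ k ∈ Finset.range K, 4 * p / (1 - σ) * σ ^ k * |h| := by
          rw [Finset.mul_sum, Finset.sum_mul]
      _ ≤ ∑ k ∈ Finset.range K, (p * σ ^ (2 * k) * u k +
          4 * p / (1 - σ) ^ 2 * |h| ^ 2 * (1 / u k)) := Finset.sum_le_sum fun k _ => h2 k
      _ = ∑ k ∈ Finset.range K, p * σ ^ (2 * k) * u k +
          4 * p / (1 - σ) ^ 2 * |h| ^ 2 * (∑ k ∈ Finset.range K, 1 / u k) := by
          rw [Finset.sum_add_distrib, Finset.mul_sum]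
      _ ≤ _ := by linarith
  have h4 : 4 * p / (1 - σ) ^ 2 * |h| ^ 2 * (∑ k ∈ Finset.range K, 1 / u k) ≤
      4 * p / (1 - σ) ^ 2 * |h| ^ 2 * (G y n h + K / turnTime y n) :=
    mul_le_mul_of_nonneg_left (hu3 K) (by positivity)
  rw [div_le_iff₀ hh0]
  have h5 : (4 * p / (1 - σ) * (∑ k ∈ Finset.range K, σ ^ k) - c) * |h| ≤
      (4 * p / (1 - σ) ^ 2 * (G y n h + K / turnTime y n) * |h|) * |h| := by
    nlinarith
  exact le_of_mul_le_mul_right h5 hh0

lemma integral_two_sides (y : ℕ → ℝ) (n : ℕ) {H : ℝ} (hH : 1 ≤ H) :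
    (∫ h in (1 : ℝ)..H, G y n h) + ∫ h in (1 : ℝ)..H, G y n (-h) ≤ ∫ h, G y n h := by
  rw [intervalIntegral.integral_comp_neg, intervalIntegral.integral_of_le hH,
    intervalIntegral.integral_of_le (by linarith : -H ≤ -1),
    ← setIntegral_union _ measurableSet_Ioc (G_integrable y n).integrableOn
      (G_integrable y n).integrableOn]
  · exact setIntegral_le_integral (G_integrable y n)
      (Filter.Eventually.of_forall (fun h => G_nonneg y n h))
  · rw [Set.disjoint_left]
    intro a ha hb
    linarith [ha.1, hb.2]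

lemma integrated (hp0 : 0 < p) (hp1 : p < 1) (hc : 0 ≤ c) (hy0 : y 0 = 0) {n : ℕ}
    (hn : 1 ≤ turnTime y n)
    (hE : ∀ h : ℝ, 1 ≤ |h| → expectedTime p y h ≤ ENNReal.ofReal (c * |h|)) (K : ℕ) {σ : ℝ}
    (hσ1 : σ < 1) (hσ : σ ^ 2 = 1 - p) :
    2 * (4 * p / (1 - σ) * ∑ k ∈ Finset.range K, σ ^ k - c) * Real.log (turnTime y n) ≤
      4 * p / (1 - σ) ^ 2 * (1 + Real.log (turnTime y n) + 2 * K) := by
  set H := turnTime y n with hH
  set D := 4 * p / (1 - σ) * ∑ k ∈ Finset.range K, σ ^ k - c with hD
  set B := 4 * p / (1 - σ) ^ 2 with hB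
  have hB0 : 0 ≤ B := by positivity
  have hH0 : 0 < H := by linarith
  have hlog : ∫ h in (1 : ℝ)..H, D * (1 / h) = D * Real.log H := by
    rw [intervalIntegral.integral_const_mul, integral_one_div_of_pos one_pos hH0, div_one]
  have hcontl : IntervalIntegrable (fun h : ℝ => D * (1 / h)) volume 1 H := by
    apply ContinuousOn.intervalIntegrable
    apply ContinuousOn.mul continuousOn_const
    apply ContinuousOn.div continuousOn_const continuousOn_id
    intro x hx
    rw [Set.uIcc_of_le hn] at hx
    have : (0 : ℝ) < x := by linarith [hx.1]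
    exact this.ne'
  have hGi : IntervalIntegrable (G y n) volume 1 H := (G_integrable y n).intervalIntegrable
  have hGi' : IntervalIntegrable (fun h => G y n (-h)) volume 1 H :=
    (G_integrable y n).comp_neg.intervalIntegrable
  have hci : IntervalIntegrable (fun _ : ℝ => (K : ℝ) / H) volume 1 H :=
    intervalIntegrable_const
  have hKH : (H - 1) * ((K : ℝ) / H) ≤ K := by
    have : (H - 1) * ((K : ℝ) / H) ≤ H * (K / H) := by
      apply mul_le_mul_of_nonneg_right (by linarith) (by positivity)
    rwa [mul_div_cancel₀ _ hH0.ne'] at this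
  have side1 : D * Real.log H ≤ B * ((∫ h in (1 : ℝ)..H, G y n h) + K) := by
    rw [← hlog]
    have h1 : ∫ h in (1 : ℝ)..H, D * (1 / h) ≤ ∫ h in (1 : ℝ)..H, B * (G y n h + K / H) := by
      apply intervalIntegral.integral_mono_on hn hcontl ((hGi.add hci).const_mul B)
      intro h hh
      have h0 : 0 < h := by linarith [hh.1]
      have habs : |h| = h := abs_of_pos h0
      have := pointwise hp0 hp1 hc hy0 hn (h := h) (by rw [habs]; exact hh.1)
        (hE h (by rw [habs]; exact hh.1)) K hσ1 hσ
      rw [habs] at this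
      rw [mul_one_div]
      exact this
    refine h1.trans ?_
    rw [intervalIntegral.integral_const_mul, intervalIntegral.integral_add hGi hci,
      intervalIntegral.integral_const, smul_eq_mul]
    apply mul_le_mul_of_nonneg_left _ hB0
    linarith
  have side2 : D * Real.log H ≤ B * ((∫ h in (1 : ℝ)..H, G y n (-h)) + K) := by
    rw [← hlog]
    have h1 : ∫ h in (1 : ℝ)..H, D * (1 / h) ≤ ∫ h in (1 : ℝ)..H, B * (G y n (-h) + K / H) := by
      apply intervalIntegral.integral_mono_on hn hcontl ((hGi'.add hci).const_mul B)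
      intro h hh
      have h0 : 0 < h := by linarith [hh.1]
      have habs : |-h| = h := by rw [abs_neg, abs_of_pos h0]
      have := pointwise hp0 hp1 hc hy0 hn (h := -h) (by rw [habs]; exact hh.1)
        (hE (-h) (by rw [habs]; exact hh.1)) K hσ1 hσ
      rw [habs] at this
      rw [mul_one_div]
      exact this
    refine h1.trans ?_
    rw [intervalIntegral.integral_const_mul, intervalIntegral.integral_add hGi' hci,
      intervalIntegral.integral_const, smul_eq_mul]
    apply mul_le_mul_of_nonneg_left _ hB0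
    linarith
  have h3 := integral_two_sides y n hn
  rw [integral_G y hn] at h3
  have h4 : B * ((∫ h in (1 : ℝ)..H, G y n h) + ∫ h in (1 : ℝ)..H, G y n (-h)) ≤
      B * (1 + Real.log H) := mul_le_mul_of_nonneg_left h3 hB0
  nlinarith

/-- the universal lower bound -/
theorem universal_lower (hp0 : 0 < p) (hp1 : p < 1) (hc : 0 ≤ c) (hyt : IsTrajectory y)
    (hr : competitiveRatio p y ≤ ENNReal.ofReal (p * c)) :
    2 * (1 + √(1 - p)) ^ 2 ≤ p * c := by
  have hq0 : 0 < 1 - p := by linarith
  set σ := √(1 - p) with hσdef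
  have hσ : σ ^ 2 = 1 - p := Real.sq_sqrt hq0.le
  have hσ0 : 0 < σ := Real.sqrt_pos.2 hq0
  have hσ1 : σ < 1 := by nlinarith
  have h1s : 0 < 1 - σ := by linarith
  have hE := (ratio_le_iff hp0 hc y).1 hr
  set B := 4 * p / (1 - σ) ^ 2 with hB
  have hB0 : 0 ≤ B := by positivity
  -- first the limit in the horizon
  have h1 : ∀ K : ℕ, 2 * (4 * p / (1 - σ) * ∑ k ∈ Finset.range K, σ ^ k - c) ≤ B := by
    intro K
    set D := 4 * p / (1 - σ) * ∑ k ∈ Finset.range K, σ ^ k - c with hD
    apply le_of_forall_pos_le_add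
    intro η hη
    -- choose the horizon
    obtain ⟨n, hn⟩ := turnTime_unbounded hyt.2.2.2 (Real.exp (B * (1 + 2 * K) / η + 1))
    have hL1 : B * (1 + 2 * K) / η + 1 ≤ Real.log (turnTime y n) := by
      rw [Real.le_log_iff_exp_le ((Real.exp_pos _).trans_le hn)]
      exact hn
    have hnn : 0 ≤ B * (1 + 2 * K) / η := by positivity
    have hn1 : 1 ≤ turnTime y n := by
      refine le_trans ?_ hn
      exact Real.one_le_exp (by linarith)
    have h2 := integrated hp0 hp1 hc hyt.1 hn1 hE K hσ1 hσ
    set L := Real.log (turnTime y n) with hL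
    have hL0 : 0 < L := by linarith
    have h3 : B * (1 + 2 * K) ≤ η * L := by
      have : B * (1 + 2 * K) / η ≤ L := by linarith
      rw [div_le_iff₀ hη] at this
      linarith
    have h4 : (2 * D) * L ≤ (B + η) * L := by nlinarith
    exact le_of_mul_le_mul_right h4 hL0
  -- then the limit in the number of passes
  have h2 : Filter.Tendsto (fun K : ℕ => 2 * (4 * p / (1 - σ) * ∑ k ∈ Finset.range K, σ ^ k - c))
      Filter.atTop (nhds (2 * (4 * p / (1 - σ) * (1 - σ)⁻¹ - c))) :=
    (((hasSum_geometric_of_lt_one hσ0.le hσ1).tendsto_sum_nat.const_mul _).sub_const _).const_mul _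
  have h3 : 2 * (4 * p / (1 - σ) * (1 - σ)⁻¹ - c) ≤ B := le_of_tendsto' h2 h1
  have h4 : 4 * p / (1 - σ) * (1 - σ)⁻¹ = B := by
    rw [hB]
    field_simp
  rw [h4] at h3
  have h5 : p * B = 4 * (1 + σ) ^ 2 := by
    rw [hB]
    have : p = (1 - σ) * (1 + σ) := by nlinarith
    rw [show p * (4 * p / (1 - σ) ^ 2) = 4 * (p / (1 - σ)) ^ 2 by field_simp]
    rw [this, mul_div_cancel_left₀ _ h1s.ne']
  nlinarith

end Pool.Agent.KS6_61.FS
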