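import Pool.Agent.KS6_61.FS.Dual

/-!
# Faulty linear search: the first pass alone forces the factor 9
-/

set_option autoImplicit false

open MeasureTheory
open scoped ENNReal

namespace Pool.Agent.KS6_61.FS

open Pool.Agent.Helper569.Faulty

variable {p c : ℝ} {y : ℕ → ℝ}

lemma ratio_contra {D : ℕ → ℝ} {θ : ℝ} (hpos : ∀ i, 0 < D i) (hmono : ∀ i, D i ≤ D (i + 1))
    (hθ0 : 0 ≤ θ) (hθ1 : θ < 1) (hrec : ∀ i, D (i + 2) * D i ≤ θ * D (i + 1) ^ 2) : False := by
  have hrat : ∀ i, D (i + 2) / D (i + 1) ≤ θ * (D (i + 1) / D i) := by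
    intro i
    have p0 := hpos i
    have p1 := hpos (i + 1)
    rw [div_le_iff₀ p1, ← mul_div_assoc, div_mul_eq_mul_div, le_div_iff₀ p0]
    nlinarith [hrec i]
  have hpow : ∀ k, D (k + 1) / D k ≤ θ ^ k * (D 1 / D 0) := by
    intro k
    induction k with
    | zero => simp
    | succ k ih =>
      calc D (k + 1 + 1) / D (k + 1) ≤ θ * (D (k + 1) / D k) := hrat k
        _ ≤ θ * (θ ^ k * (D 1 / D 0)) := mul_le_mul_of_nonneg_left ih hθ0
        _ = θ ^ (k + 1) * (D 1 / D 0) := by rw [pow_succ]; ring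
  have hge : ∀ k, 1 ≤ D (k + 1) / D k := by
    intro k
    rw [one_le_div (hpos _)]
    exact hmono _
  have hlim : Filter.Tendsto (fun k : ℕ => θ ^ k * (D 1 / D 0)) Filter.atTop
      (nhds (0 * (D 1 / D 0))) :=
    (tendsto_pow_atTop_nhds_zero_of_lt_one hθ0 hθ1).mul_const _
  rw [zero_mul] at hlim
  have := ge_of_tendsto' hlim (fun k => (hge k).trans (hpow k))
  linarith

/-- the extent reached on the side `s`, but at least 1 -/
noncomputable def Ext (y : ℕ → ℝ) (s : ℝ) : ℕ → ℝ
  | 0 => 1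
  | n + 1 => max (Ext y s n) (s * y (n + 1))

lemma Ext_mono (y : ℕ → ℝ) (s : ℝ) : Monotone (Ext y s) := by
  apply monotone_nat_of_le_succ
  intro n
  exact le_max_left _ _

lemma one_le_Ext (y : ℕ → ℝ) (s : ℝ) (n : ℕ) : 1 ≤ Ext y s n := Ext_mono y s (Nat.zero_le n)

lemma le_Ext (hy0 : y 0 = 0) (s : ℝ) (n : ℕ) : s * y n ≤ Ext y s n := by
  cases n with
  | zero => rw [hy0, mul_zero]; exact zero_le_one
  | succ n => exact le_max_right _ _

/-- the extent is attained after a record -/
lemma Ext_attained (y : ℕ → ℝ) (s : ℝ) {k : ℕ} (hk : Ext y s k < s * y (k + 1)) (n : ℕ)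
    (hn : k + 1 ≤ n) : ∃ m, k + 1 ≤ m ∧ m ≤ n ∧ Ext y s n = s * y m := by
  induction n, hn using Nat.le_induction with
  | base => exact ⟨k + 1, le_rfl, le_rfl, max_eq_right hk.le⟩
  | succ n hn ih =>
    obtain ⟨m, h1, h2, h3⟩ := ih
    rcases le_total (Ext y s n) (s * y (n + 1)) with h | h
    · exact ⟨n + 1, by omega, le_rfl, max_eq_right h⟩
    · exact ⟨m, h1, by omega, (max_eq_left h).trans h3⟩

lemma turnTime_diff (y : ℕ → ℝ) {m n : ℕ} (h : m ≤ n) :
    |y n - y m| ≤ turnTime y n - turnTime y m := by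
  induction n, h using Nat.le_induction with
  | base => simp
  | succ n hn ih =>
    rw [turnTime_succ]
    have : |y (n + 1) - y m| ≤ |y (n + 1) - y n| + |y n - y m| := by
      calc |y (n + 1) - y m| = |(y (n + 1) - y n) + (y n - y m)| := by ring_nf
        _ ≤ _ := abs_add_le _ _
    linarith

lemma sgn_mul_le_abs {s : ℝ} (hs : s = 1 ∨ s = -1) (a : ℝ) : s * a ≤ |a| := by
  rcases hs with h | h <;> rw [h]
  · rw [one_mul]; exact le_abs_self a
  · rw [neg_one_mul]; exact neg_le_abs a

lemma exists_visit (hp0 : 0 < p) (hp1 : p < 1)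
    (hE : ∀ h : ℝ, 1 ≤ |h| → expectedTime p y h ≤ ENNReal.ofReal (c * |h|)) {h : ℝ}
    (hh : 1 ≤ |h|) (hc : 0 ≤ c) {c' : ℝ} (hc' : c < c') :
    ∃ i, h ∈ Set.uIcc (y i) (y (i + 1)) ∧ segTime y i h ≤ c' * |h| := by
  have h1 : passTime y h 1 ≤ expectedTime p y h := by
    rw [expectedTime_eq hp0 hp1.le]
    have hs := hasSum_pq hp0 hp1
    have hq0 : 0 < 1 - p := by linarith
    have h2 : ∑' k : ℕ, ENNReal.ofReal (p * (1 - p) ^ k) = 1 := by
      rw [← ENNReal.ofReal_tsum_of_nonneg (fun k => by positivity) hs.summable, hs.tsum_eq,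
        ENNReal.ofReal_one]
    calc passTime y h 1 = ∑' k : ℕ, ENNReal.ofReal (p * (1 - p) ^ k) * passTime y h 1 := by
          rw [ENNReal.tsum_mul_right, h2, one_mul]
      _ ≤ _ := by
          apply ENNReal.tsum_le_tsum
          intro k
          exact mul_le_mul_right (passTime_mono y h (by omega)) _
  have h2 : passTime y h 1 < ENNReal.ofReal (c' * |h|) := by
    refine (h1.trans (hE h hh)).trans_lt ?_
    have hpos : 0 < |h| := by linarith
    have h3 : c * |h| < c' * |h| := mul_lt_mul_of_pos_right hc' hpos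
    exact (ENNReal.ofReal_lt_ofReal_iff (lt_of_le_of_lt (by positivity) h3)).2 h3
  unfold passTime at h2
  obtain ⟨t, ht⟩ := iInf_lt_iff.1 h2
  obtain ⟨ht1, ht2⟩ := iInf_lt_iff.1 ht
  have hc'0 : 0 < c' := by linarith
  have hh0 : 0 < |h| := by linarith
  have h3 : t < c' * |h| := (ENNReal.ofReal_lt_ofReal_iff (by positivity)).1 ht2
  have hne : {s : ℝ | s ≤ t ∧ IsAt y s h}.Nonempty := by
    rw [Set.nonempty_iff_ne_empty]
    intro he
    rw [he, Set.encard_empty] at ht1
    simp at ht1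
  obtain ⟨s, hs1, hs2⟩ := hne
  obtain ⟨i, hi, rfl⟩ := isAt_iff y hs2
  refine ⟨i, hi, ?_⟩
  change turnTime y i + |h - y i| ≤ c' * |h|
  change turnTime y i + |h - y i| ≤ t at hs1
  linarith

/-- a record at `k + 1` on the side `s` -/
def Rec (y : ℕ → ℝ) (s : ℝ) (k : ℕ) : Prop := Ext y s k < s * y (k + 1)

/-- time minus position -/
noncomputable def U (y : ℕ → ℝ) (s : ℝ) (k : ℕ) : ℝ := turnTime y (k + 1) - s * y (k + 1)

lemma exists_record (hp0 : 0 < p) (hp1 : p < 1)
    (hE : ∀ h : ℝ, 1 ≤ |h| → expectedTime p y h ≤ ENNReal.ofReal (c * |h|))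
    (hc : 0 ≤ c) (hy0 : y 0 = 0) {s : ℝ} (hs : s = 1 ∨ s = -1) (m : ℕ) :
    ∃ k, m ≤ k ∧ Rec y s k ∧ Ext y s k = Ext y s m := by
  classical
  have hex : ∃ n, Ext y s m < Ext y s n := by
    set g := Ext y s m + 1 with hg
    have hg1 : 1 ≤ g := by have := one_le_Ext y s m; linarith
    have habs : |s * g| = g := by
      rw [abs_mul, abs_of_pos (by linarith : 0 < g)]
      rcases hs with h | h <;> rw [h] <;> simp
    obtain ⟨i, hi, _⟩ := exists_visit hp0 hp1 hE (h := s * g) (by rw [habs]; exact hg1) hc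
      (lt_add_one c)
    have h1 := le_Ext hy0 s i
    have h2 := le_Ext hy0 s (i + 1)
    have h3 := Ext_mono y s (Nat.le_succ i)
    refine ⟨i + 1, ?_⟩
    rw [Set.mem_uIcc] at hi
    have h4 : g ≤ Ext y s (i + 1) := by
      change Ext y s i ≤ Ext y s (i + 1) at h3
      rcases hs with h | h <;> rw [h] at hi h1 h2 h3 ⊢ <;>
        rcases hi with ⟨a, b⟩ | ⟨a, b⟩ <;> linarith
    linarith
  have hspec := Nat.find_spec hex
  have hne : Nat.find hex ≠ 0 := by
    intro h
    rw [h] at hspec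
    have := Ext_mono y s (Nat.zero_le m)
    linarith
  obtain ⟨k, hk⟩ := Nat.exists_eq_succ_of_ne_zero hne
  have hkle : Ext y s k ≤ Ext y s m := by
    by_contra h
    push Not at h
    have := Nat.find_min' hex h
    omega
  have hmk : m ≤ k := by
    by_contra h
    push Not at h
    have h1 : k.succ ≤ m := h
    have := Ext_mono y s h1
    rw [hk] at hspec
    linarith
  have heq : Ext y s k = Ext y s m := le_antisymm hkle (Ext_mono y s hmk)
  refine ⟨k, hmk, ?_, heq⟩
  rw [hk] at hspec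
  change Ext y s m < max (Ext y s k) (s * y (k + 1)) at hspec
  rw [heq] at hspec
  unfold Rec
  rw [heq]
  rcases lt_max_iff.1 hspec with h | h
  · exact absurd h (lt_irrefl _)
  · exact h

/-- the time of a record is bounded by the extent -/
lemma record_bound (hp0 : 0 < p) (hp1 : p < 1)
    (hE : ∀ h : ℝ, 1 ≤ |h| → expectedTime p y h ≤ ENNReal.ofReal (c * |h|))
    (hc : 0 ≤ c) (hy0 : y 0 = 0) {s : ℝ} (hs : s = 1 ∨ s = -1) {k : ℕ} (hk : Rec y s k) :
    U y s k ≤ (c - 1) * Ext y s k := by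
  have hx1 := one_le_Ext y s k
  have hk' : Ext y s k < s * y (k + 1) := hk
  -- for points slightly farther than the extent
  have main : ∀ g, Ext y s k < g → g ≤ s * y (k + 1) → ∀ c', c < c' → U y s k + g ≤ c' * g := by
    intro g hg1 hg2 c' hc'
    have hg0 : 0 < g := by linarith
    have habs : |s * g| = g := by
      rw [abs_mul, abs_of_pos hg0]
      rcases hs with h | h <;> rw [h] <;> simp
    obtain ⟨j, hj, hjt⟩ := exists_visit hp0 hp1 hE (h := s * g) (by rw [habs]; linarith) hc hc'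
    rw [habs] at hjt
    have hkj : k ≤ j := by
      by_contra hlt
      push Not at hlt
      have h1 := le_Ext hy0 s j
      have h2 := le_Ext hy0 s (j + 1)
      have h3 := Ext_mono y s (Nat.le_succ j)
      have h4 := Ext_mono y s (show j + 1 ≤ k from hlt)
      change Ext y s j ≤ Ext y s (j + 1) at h3
      rw [Set.mem_uIcc] at hj
      rcases hs with h | h <;> rw [h] at hj h1 h2 h3 h4 hg1 <;>
        rcases hj with ⟨a, b⟩ | ⟨a, b⟩ <;> linarith
    refine le_trans ?_ hjt
    unfold U segTime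
    have h1 := turnTime_diff y hkj
    have h2 : |s * g - y k| ≤ |s * g - y j| + |y j - y k| := by
      calc |s * g - y k| = |(s * g - y j) + (y j - y k)| := by ring_nf
        _ ≤ _ := abs_add_le _ _
    have h3 := turnTime_succ y k
    have h4 := le_Ext hy0 s k
    have h5 : |y (k + 1) - y k| = s * y (k + 1) - s * y k := by
      rcases hs with h | h <;> rw [h] at hk' h4 ⊢
      · rw [abs_of_nonneg (by linarith)]; ring
      · rw [abs_of_nonpos (by linarith)]; ring
    have h6 : |s * g - y k| = g - s * y k := by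
      rcases hs with h | h <;> rw [h] at hg1 h4 ⊢
      · rw [abs_of_nonneg (by linarith)]; ring
      · rw [abs_of_nonpos (by linarith)]; ring
    linarith
  have main2 : ∀ g, Ext y s k < g → g ≤ s * y (k + 1) → U y s k ≤ (c - 1) * g := by
    intro g hg1 hg2
    have hg0 : 0 < g := by linarith
    apply le_of_forall_pos_le_add
    intro η hη
    have := main g hg1 hg2 (c + η / g) (by have : 0 < η / g := by positivity
                                           linarith)
    have e : (c + η / g) * g = c * g + η := by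
      rw [add_mul, div_mul_cancel₀ _ hg0.ne']
    rw [e] at this
    linarith
  by_contra hcon
  push Not at hcon
  -- choose g close to the extent
  set x := Ext y s k with hx
  set d := U y s k - (c - 1) * x with hd
  have hd0 : 0 < d := by linarith
  obtain ⟨g, hg1, hg2⟩ := exists_between (lt_min hk'
    (by have : 0 < d / (c + 1) := by positivity
        linarith : x < x + d / (c + 1)))
  have h1 := main2 g hg1 ((hg2.trans_le (min_le_left _ _)).le)
  have h2 : g - x < d / (c + 1) := by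
    have := hg2.trans_le (min_le_right _ _)
    linarith
  rw [lt_div_iff₀ (by positivity)] at h2
  nlinarith

/-- the state: side and index of a record -/
def State (y : ℕ → ℝ) : Type := {st : ℝ × ℕ // (st.1 = 1 ∨ st.1 = -1) ∧ Rec y st.1 st.2}

lemma next_state (hp0 : 0 < p) (hp1 : p < 1)
    (hE : ∀ h : ℝ, 1 ≤ |h| → expectedTime p y h ≤ ENNReal.ofReal (c * |h|))
    (hc : 0 ≤ c) (hy0 : y 0 = 0) (st : State y) :
    ∃ st' : State y, st'.1.1 = -st.1.1 ∧ st.1.2 + 1 ≤ st'.1.2 ∧
      Ext y st'.1.1 st'.1.2 = Ext y st'.1.1 (st.1.2 + 1) := by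
  obtain ⟨⟨s, k⟩, hs, hk⟩ := st
  have hs' : -s = 1 ∨ -s = -1 := by
    rcases hs with h | h
    · right
      change s = 1 at h
      rw [h]
    · left
      change s = -1 at h
      rw [h]
      norm_num
  obtain ⟨k', h1, h2, h3⟩ := exists_record hp0 hp1 hE hc hy0 hs' (k + 1)
  exact ⟨⟨(-s, k'), hs', h2⟩, rfl, h1, h3⟩

/-- the lower bound 9 for the first pass -/
theorem nine_lower (hp0 : 0 < p) (hp1 : p < 1) (hc : 0 ≤ c) (hyt : IsTrajectory y)
    (hr : competitiveRatio p y ≤ ENNReal.ofReal (p * c)) : 9 ≤ c := by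
  classical
  have hE := (ratio_le_iff hp0 hc y).1 hr
  have hy0 := hyt.1
  by_contra hcon
  push Not at hcon
  choose nx hnx1 hnx2 hnx3 using next_state hp0 hp1 hE hc hy0
  obtain ⟨k0, _, hk0, _⟩ := exists_record hp0 hp1 hE hc hy0 (s := 1) (Or.inl rfl) 0
  let st0 : State y := ⟨(1, k0), Or.inl rfl, hk0⟩
  set f : ℕ → State y := fun n => nx^[n] st0 with hf
  have hfs : ∀ n, f (n + 1) = nx (f n) := fun n => Function.iterate_succ_apply' nx n st0
  set s : ℕ → ℝ := fun n => (f n).1.1 with hs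
  set k : ℕ → ℕ := fun n => (f n).1.2 with hk
  have hs1 : ∀ n, s n = 1 ∨ s n = -1 := fun n => (f n).2.1
  have hrec : ∀ n, Ext y (s n) (k n) < s n * y (k n + 1) := fun n => (f n).2.2
  have hsn : ∀ n, s (n + 1) = -s n := by
    intro n
    simp only [hs]
    rw [hfs]
    exact hnx1 _
  have hkn : ∀ n, k n + 1 ≤ k (n + 1) := by
    intro n
    simp only [hk]
    rw [hfs]
    exact hnx2 _
  have hext : ∀ n, Ext y (s (n + 1)) (k (n + 1)) = Ext y (s (n + 1)) (k n + 1) := by
    intro n
    simp only [hs, hk]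
    rw [hfs]
    exact hnx3 _
  set V : ℕ → ℝ := fun n => U y (s n) (k n) with hV
  have hVb : ∀ n, V n ≤ (c - 1) * Ext y (s n) (k n) := fun n =>
    record_bound hp0 hp1 hE hc hy0 (hs1 n) (hrec n)
  have hVs : ∀ n, V n + 2 * Ext y (s (n + 2)) (k (n + 2)) ≤ V (n + 1) := by
    intro n
    have e1 : s (n + 2) = s n := by rw [hsn (n + 1), hsn n, neg_neg]
    rw [hext (n + 1), e1]
    have h1 := hrec n
    have h2 := hrec (n + 1)
    -- the extent after the next record equals the extent before it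
    have h3 : Ext y (s n) (k (n + 1) + 1) = Ext y (s n) (k (n + 1)) := by
      apply max_eq_left
      have h4 := one_le_Ext y (s (n + 1)) (k (n + 1))
      have h5 := one_le_Ext y (s n) (k (n + 1))
      rw [hsn n] at h2 h4
      linarith
    rw [h3]
    obtain ⟨m, hm1, hm2, hm3⟩ := Ext_attained y (s n) h1 (k (n + 1)) (hkn n)
    rw [hm3]
    simp only [hV]
    unfold U
    have h6 := turnTime_diff y hm1
    have h7 := turnTime_diff y (show m ≤ k (n + 1) + 1 by omega)
    have h8 := sgn_mul_le_abs (hs1 n) (y m - y (k n + 1))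
    have h9 := sgn_mul_le_abs (hs1 (n + 1)) (y (k (n + 1) + 1) - y m)
    rw [hsn n] at h9 ⊢
    linarith
  have hμ : ∀ n, 2 * V (n + 2) ≤ (c - 1) * (V (n + 1) - V n) := by
    intro n
    have h1 := hVb (n + 2)
    have h2 := hVs n
    have hc1 : 0 ≤ c - 1 := by
      have h3 := one_le_Ext y (s (n + 2)) (k (n + 2))
      by_contra hneg
      push Not at hneg
      have h4 : 0 ≤ V (n + 2) := by
        simp only [hV]
        unfold U
        have h5 := sgn_mul_le_abs (hs1 (n + 2)) (y (k (n + 2) + 1))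
        have h6 := abs_le_turnTime hy0 (k (n + 2) + 1)
        linarith
      nlinarith
    nlinarith
  have hVpos : ∀ n, 0 < V (n + 1) := by
    intro n
    have h1 := hVs n
    have h2 := one_le_Ext y (s (n + 2)) (k (n + 2))
    have h3 : 0 ≤ V n := by
      simp only [hV]
      unfold U
      have h5 := sgn_mul_le_abs (hs1 n) (y (k n + 1))
      have h6 := abs_le_turnTime hy0 (k n + 1)
      linarith
    linarith
  have hVmono : ∀ n, V (n + 1) ≤ V (n + 1 + 1) := by
    intro n
    have h1 := hVs (n + 1)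
    have h2 := one_le_Ext y (s (n + 1 + 2)) (k (n + 1 + 2))
    linarith
  have hc1 : 0 ≤ c - 1 := by
    have h1 := hμ 1
    have h2 := hVmono 0
    have h3 := hVpos 2
    by_contra hneg
    push Not at hneg
    have h4 : (c - 1) * (V (1 + 1) - V 1) ≤ 0 :=
      mul_nonpos_of_nonpos_of_nonneg hneg.le (by linarith)
    change 0 < V (1 + 2) at h3
    linarith
  refine ratio_contra (D := fun n => V (n + 1)) (θ := (c - 1) / 8) hVpos hVmono (by linarith)
    (by linarith) ?_
  intro n
  have h1 := hμ (n + 1)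
  have h2 := hVpos n
  have h3 : 2 * V (n + 1 + 2) * V (n + 1) ≤ (c - 1) * (V (n + 1 + 1) - V (n + 1)) * V (n + 1) :=
    mul_le_mul_of_nonneg_right h1 h2.le
  have h4 : 0 ≤ (c - 1) * (V (n + 1 + 1) - 2 * V (n + 1)) ^ 2 := by positivity
  change V (n + 1 + 2) * V (n + 1) ≤ (c - 1) / 8 * V (n + 1 + 1) ^ 2
  nlinarith

end Pool.Agent.KS6_61.FS
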