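import Pool.Agent.KS6_61.FS.Zig

/-!
# Faulty linear search: the competitive ratio of the trajectory with delayed zigzags
-/

set_option autoImplicit false

open MeasureTheory
open scoped ENNReal

namespace Pool.Agent.KS6_61.FS

open Pool.Agent.Helper569.Faulty

variable {r ρ δ p γ : ℝ} {J : ℕ}

/-- numerical conditions -/
structure Num (p r ρ δ γ : ℝ) (J : ℕ) : Prop extends Par r ρ δ where
  hp0 : 0 < p
  hp1 : p < 1
  hr2 : r * (2 - p) = 2
  hρJ : ρ * r ^ (2 * J + 2) = 1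
  hγ0 : 0 ≤ γ
  hγ8 : γ ≤ 8
  hNZ : 8 + 8 * δ * (ρ * r) ≤ (8 - γ) * (1 + δ)
  hZ : γ + 8 * δ * (ρ * r) + p ^ 2 * (1 - p) ^ (2 * J + 1) * (2 + 2 * δ + 2 * δ * (1 - p)) ≤
    2 * p * (1 - p) ^ (2 * J + 1) * (2 - p) ^ 2 / ρ

/-- the value to be proved, divided by `p` -/
noncomputable def cc (p γ : ℝ) : ℝ := (8 - γ) / p + p / (2 - p)

lemma w_eq (h : Num p r ρ δ γ J) : 1 - (1 - p) * r = r - 1 := by
  have := h.hr2
  linarith

lemma eta_eq (h : Num p r ρ δ γ J) : (r - 1) * (2 - p) = p := by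
  have := h.hr2
  linarith

lemma pLam (h : Num p r ρ δ γ J) :
    p * Lam r ρ δ = 2 * (1 + δ * ρ) * (2 - p) + 2 * p * (δ * ρ) := by
  have h1 := eta_eq h
  have h2 : r - 1 ≠ 0 := by have := h.hr; linarith
  unfold Lam
  field_simp
  linear_combination (-(1 + δ * ρ)) * h1

lemma pLam2 (h : Num p r ρ δ γ J) : p * Lam r ρ δ * (2 * r) = 8 + 8 * δ * (ρ * r) := by
  rw [pLam h]
  linear_combination (4 * (1 + δ * ρ) - 4 * δ * ρ) * h.hr2 

/-- the bound for the passes in the zigzag case -/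
noncomputable def Lz (r ρ δ : ℝ) (J i : ℕ) (k : ℕ) : ℝ :=
  if k < 2 * J + 1 then Lam r ρ δ * gx r (i + 2) * r ^ k
  else if k = 2 * J + 1 then Lam r ρ δ * gx r (i + 2 * J + 2) + 2 * (1 + δ) * gx r i
  else if k = 2 * J + 2 then Lam r ρ δ * gx r (i + 2 * J + 2) + 2 * δ * gx r i
  else Lam r ρ δ * gx r (i + 2) * r ^ (k - 2)

lemma hasSum_base (h : Num p r ρ δ γ J) (A : ℝ) :
    HasSum (fun k : ℕ => p * (1 - p) ^ k * (A * r ^ k)) (A * (2 - p)) := by
  have hq0 : 0 < 1 - p := by have := h.hp1; linarith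
  have hr0 : 0 < r := by have := h.hr; linarith
  have hr1 := h.hr
  have hw := w_eq h
  have hη := eta_eq h
  have h1 := (hasSum_geometric_of_lt_one (r := (1 - p) * r) (by positivity) (by linarith)).mul_left
    (p * A)
  have e1 : p * A * (1 - (1 - p) * r)⁻¹ = A * (2 - p) := by
    rw [hw]
    have : r - 1 ≠ 0 := by linarith
    field_simp
    linear_combination (-A) * hη
  rw [e1] at h1
  have e2 : (fun k : ℕ => p * (1 - p) ^ k * (A * r ^ k)) =
      fun k : ℕ => p * A * ((1 - p) * r) ^ k := by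
    funext k
    rw [mul_pow]; ring
  rw [e2]
  exact h1

lemma hasSum_Lz (h : Num p r ρ δ γ J) (i : ℕ) :
    ∃ V, HasSum (fun k : ℕ => p * (1 - p) ^ k * Lz r ρ δ J i k) V ∧
      p * V ≤ (8 - γ) * gx r i := by
  have hp0 := h.hp0
  have hq0 : 0 < 1 - p := by have := h.hp1; linarith
  have hr0 : 0 < r := by have := h.hr; linarith
  have hr1 := h.hr
  have hw := w_eq h
  have hη := eta_eq h
  have hρ0 := h.hρ
  set q := 1 - p with hq
  set A := Lam r ρ δ * gx r (i + 2) with hA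
  set X := gx r i with hX
  have hX0 : 0 < X := gx_pos hr1 i
  have htail : HasSum (fun k : ℕ => p * q ^ (k + (2 * J + 3)) * Lz r ρ δ J i (k + (2 * J + 3)))
      (p * q ^ 2 * A * (q * r) ^ (2 * J + 1) * (1 - q * r)⁻¹) := by
    have h1 := (hasSum_geometric_of_lt_one (r := q * r) (by positivity) (by linarith)).mul_left
      (p * q ^ 2 * A * (q * r) ^ (2 * J + 1))
    have e2 : (fun k : ℕ => p * q ^ (k + (2 * J + 3)) * Lz r ρ δ J i (k + (2 * J + 3))) =
        fun k : ℕ => p * q ^ 2 * A * (q * r) ^ (2 * J + 1) * (q * r) ^ k := by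
      funext k
      unfold Lz
      rw [if_neg (by omega), if_neg (by omega), if_neg (by omega),
        show k + (2 * J + 3) - 2 = k + (2 * J + 1) by omega,
        show k + (2 * J + 3) = k + (2 * J + 1) + 2 by ring, mul_pow, mul_pow, pow_add q,
        pow_add q, pow_add r]
      ring
    rw [e2]
    exact h1
  have htail2 := (hasSum_nat_add_iff
    (f := fun k : ℕ => p * q ^ k * Lz r ρ δ J i k) (2 * J + 3)).1 htail
  refine ⟨_, htail2, ?_⟩
  rw [show 2 * J + 3 = 2 * J + 1 + 1 + 1 by ring, Finset.sum_range_succ, Finset.sum_range_succ]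
  have e3 : ∑ k ∈ Finset.range (2 * J + 1), p * q ^ k * Lz r ρ δ J i k =
      p * A * ((1 - (q * r) ^ (2 * J + 1)) * (1 - q * r)⁻¹) := by
    have e4 : ∑ k ∈ Finset.range (2 * J + 1), p * q ^ k * Lz r ρ δ J i k =
        ∑ k ∈ Finset.range (2 * J + 1), p * A * (q * r) ^ k := by
      apply Finset.sum_congr rfl
      intro k hk
      rw [Finset.mem_range] at hk
      unfold Lz
      rw [if_pos hk, mul_pow]
      ring
    rw [e4, ← Finset.mul_sum, geom_sum_eq (by linarith : q * r ≠ 1)]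
    have h5 : q * r - 1 ≠ 0 := by linarith
    have h6 : 1 - q * r ≠ 0 := by linarith
    rw [div_eq_mul_inv, show (q * r - 1)⁻¹ = -(1 - q * r)⁻¹ by rw [← inv_neg]; congr 1; ring]
    ring
  have e5 : Lz r ρ δ J i (2 * J + 1) = Lam r ρ δ * gx r (i + 2 * J + 2) + 2 * (1 + δ) * X := by
    unfold Lz
    rw [if_neg (by omega), if_pos rfl]
  have e6 : Lz r ρ δ J i (2 * J + 1 + 1) = Lam r ρ δ * gx r (i + 2 * J + 2) + 2 * δ * X := by
    unfold Lz
    rw [if_neg (by omega), if_neg (by omega), if_pos rfl]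
  rw [e3, e5, e6]
  have hK : gx r (i + 2 * J + 2) = X / ρ := by
    rw [show i + 2 * J + 2 = i + (2 * J + 2) by ring, gx_add, eq_div_iff hρ0.ne']
    linear_combination X * h.hρJ
  have hA2 : A = Lam r ρ δ * (r ^ 2 * X) := by
    rw [hA, gx_add]
  set Q := q ^ (2 * J + 1) with hQ
  have hR : ρ * r * r ^ (2 * J + 1) = 1 := by
    have := h.hρJ
    rw [show 2 * J + 2 = (2 * J + 1) + 1 by ring, pow_succ] at this
    linarith
  set R := r ^ (2 * J + 1) with hRdef
  have hRe : R = 1 / (ρ * r) := by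
    rw [eq_div_iff (by positivity)]
    linarith
  rw [mul_pow, ← hQ, ← hRdef, hK, hA2, pow_succ q (2 * J + 1), ← hQ]
  have hinv : (1 - q * r)⁻¹ = (2 - p) / p := by
    have h1 : r - 1 ≠ 0 := by linarith
    have h2 : (r - 1)⁻¹ * ((r - 1) * (2 - p)) = 2 - p := inv_mul_cancel_left₀ h1 _
    rw [hη] at h2
    rw [hw, eq_div_iff hp0.ne', h2]
  rw [hinv]
  have hQ0 : 0 < Q := by positivity
  set L := Lam r ρ δ with hL
  -- exact value
  have hval : p * (p * q ^ 2 * (L * (r ^ 2 * X)) * (Q * R) * ((2 - p) / p) +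
      (p * (L * (r ^ 2 * X)) * ((1 - Q * R) * ((2 - p) / p)) +
        p * Q * (L * (X / ρ) + 2 * (1 + δ) * X) + p * (Q * q) * (L * (X / ρ) + 2 * δ * X))) =
      X * (p * L * (2 * r) - p * L * (p * Q * (2 - p) / ρ) +
        p ^ 2 * Q * (2 + 2 * δ + 2 * δ * q)) := by
    have hr2 := h.hr2
    have hq2 : q = 1 - p := hq
    rw [hRe]
    have hr2' : r = 2 / (2 - p) := by
      have : (2 : ℝ) - p ≠ 0 := by linarith
      rw [eq_div_iff this]
      linarith
    rw [hr2', hq2]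
    have h2p : (2 : ℝ) - p ≠ 0 := by linarith
    field_simp
    ring
  rw [hval]
  have h7 := pLam2 h
  have h8 := pLam h
  rw [← hL] at h7 h8
  rw [h7]
  have h9 : 2 * (2 - p) ≤ p * L := by
    rw [h8]
    have h10 := h.hδ
    have h11 : 0 < δ * ρ := by positivity
    have h12 := h.hp1
    nlinarith
  have h10 := h.hZ
  rw [← hq, ← hQ] at h10
  have h11 : 2 * p * Q * (2 - p) ^ 2 / ρ ≤ p * L * (p * Q * (2 - p) / ρ) := by
    have h2p : 0 < 2 - p := by linarith
    calc 2 * p * Q * (2 - p) ^ 2 / ρ = 2 * (2 - p) * (p * Q * (2 - p) / ρ) := by ring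
      _ ≤ _ := mul_le_mul_of_nonneg_right h9 (by positivity)
  rw [mul_comm (8 - γ) X]
  apply mul_le_mul_of_nonneg_left _ hX0.le
  linarith

/-- points that are not in a zigzag -/
lemma nonzig_bound (h : Num p r ρ δ γ J) {i : ℕ} {g : ℝ} (hgi0 : (1 + δ) * gx r i ≤ g)
    (hgi : g < gx r (i + 2)) :
    expectedTime p (zy r ρ δ) ((-1) ^ i * g) ≤ ENNReal.ofReal (cc p γ * g) := by
  have hP := h.toPar
  have hp0 := h.hp0
  have hp1 := h.hp1
  have hX0 := gx_pos h.hr i
  have hδ := h.hδ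
  have hg0 : 0 < g := lt_of_lt_of_le (by positivity) hgi0
  have hgi1 : gx r i ≤ g := by nlinarith
  have hmono := bt_strictMono hP hg0 hgi
  refine (expectedTime_le hp0 hp1.le hmono (bt_pass hP hgi1 hgi)).trans ?_
  have hT := (hasSum_base h (Lam r ρ δ * gx r (i + 2))).add ((hasSum_alt hp0 hp1).mul_right g)
  have e1 : (fun k : ℕ => p * (1 - p) ^ k * (Lam r ρ δ * gx r (i + 2) * r ^ k) +
      p * (1 - p) ^ k * (-1) ^ k * g) = fun k : ℕ =>
        p * (1 - p) ^ k * (Lam r ρ δ * gx r (i + 2) * r ^ k + (-1) ^ k * g) := by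
    funext k
    ring
  rw [e1] at hT
  refine (ofReal_sum_le hp0 hp1 (bt_le hP i g) (fun k => ?_) hT).trans ?_
  · have h1 := hmono.monotone (Nat.zero_le k)
    have h2 := bt_le hP i g k
    have h3 : 0 ≤ bt r ρ δ i g 0 := by
      have h4 := T_nonneg hP (i + 2 + 0)
      have h5 := gx_pos h.hr (i + 2 + 0)
      have h6 := h.hρ
      unfold bt
      rw [pow_zero, one_mul]
      split_ifs
      · have : 0 < δ * ρ * gx r (i + 2 + 0) := by positivity
        linarith
      · linarith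
    linarith
  · apply ENNReal.ofReal_le_ofReal
    have h7 := pLam2 h
    have h8 : p * (Lam r ρ δ * gx r (i + 2) * (2 - p)) = (8 + 8 * δ * (ρ * r)) * gx r i := by
      rw [← h7, gx_add]
      linear_combination (p * Lam r ρ δ * r * gx r i) * h.hr2
    have h9 : (8 + 8 * δ * (ρ * r)) * gx r i ≤ (8 - γ) * g := by
      calc (8 + 8 * δ * (ρ * r)) * gx r i ≤ ((8 - γ) * (1 + δ)) * gx r i :=
            mul_le_mul_of_nonneg_right h.hNZ hX0.le
        _ = (8 - γ) * ((1 + δ) * gx r i) := by ring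
        _ ≤ (8 - γ) * g := mul_le_mul_of_nonneg_left hgi0 (by have := h.hγ8; linarith)
    have h10 : Lam r ρ δ * gx r (i + 2) * (2 - p) ≤ (8 - γ) / p * g := by
      rw [div_mul_eq_mul_div, le_div_iff₀ hp0]
      linarith
    unfold cc
    linarith

/-- points in a zigzag -/
lemma zig_bound (h : Num p r ρ δ γ J) {i : ℕ} {g : ℝ} (hgi0 : gx r i ≤ g)
    {τ : ℕ → ℝ} (hτ : StrictMono τ) (hτ0 : 0 ≤ τ 0)
    (hpass : ∀ k, IsAt (zy r ρ δ) (τ k) ((-1) ^ i * g))
    (h1 : ∀ k, k < 2 * J + 1 → τ k ≤ bt r ρ δ i g k)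
    (h2 : τ (2 * J + 1) ≤ T r ρ δ (i + 2 * J + 2) + 2 * (1 + δ) * gx r i - g)
    (h3 : τ (2 * J + 2) ≤ T r ρ δ (i + 2 * J + 2) + 2 * δ * gx r i + g)
    (h4 : ∀ k, 2 * J + 3 ≤ k → τ k ≤ bt r ρ δ i g (k - 2)) :
    expectedTime p (zy r ρ δ) ((-1) ^ i * g) ≤ ENNReal.ofReal (cc p γ * g) := by
  have hP := h.toPar
  have hp0 := h.hp0
  have hp1 := h.hp1
  have hX0 := gx_pos h.hr i
  have hδ := h.hδ
  have hg0 : 0 < g := lt_of_lt_of_le hX0 hgi0
  refine (expectedTime_le hp0 hp1.le hτ hpass).trans ?_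
  obtain ⟨V, hV1, hV2⟩ := hasSum_Lz h i
  have hT := hV1.add ((hasSum_alt hp0 hp1).mul_right g)
  have e1 : (fun k : ℕ => p * (1 - p) ^ k * Lz r ρ δ J i k +
      p * (1 - p) ^ k * (-1) ^ k * g) = fun k : ℕ =>
        p * (1 - p) ^ k * (Lz r ρ δ J i k + (-1) ^ k * g) := by
    funext k
    ring
  rw [e1] at hT
  have hle : ∀ k, τ k ≤ Lz r ρ δ J i k + (-1) ^ k * g := by
    intro k
    unfold Lz
    have hTL := T_le_Lam hP (i + 2 * J + 2)
    split_ifs with c1 c2 c3
    · exact (h1 k c1).trans (bt_le hP i g k)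
    · rw [c2, pow_parity (show (2 * J + 1) % 2 = 1 % 2 by omega), pow_one]
      linarith
    · rw [c3, pow_parity (show (2 * J + 2) % 2 = 0 % 2 by omega), pow_zero]
      linarith
    · have h5 := h4 k (by omega)
      have h6 := bt_le hP i g (k - 2)
      rw [pow_parity (show (k - 2) % 2 = k % 2 by omega)] at h6
      linarith
  refine (ofReal_sum_le hp0 hp1 hle (fun k => ?_) hT).trans ?_
  · have h5 := hτ.monotone (Nat.zero_le k)
    have h6 := hle k
    linarith
  · apply ENNReal.ofReal_le_ofReal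
    have h9 : (8 - γ) * gx r i ≤ (8 - γ) * g :=
      mul_le_mul_of_nonneg_left hgi0 (by have := h.hγ8; linarith)
    have h10 : V ≤ (8 - γ) / p * g := by
      rw [div_mul_eq_mul_div, le_div_iff₀ hp0]
      linarith
    unfold cc
    linarith

lemma exists_insert (b : ℕ → ℝ) (u v : ℝ) (J : ℕ) : ∃ τ : ℕ → ℝ, (∀ k, k ≤ 2 * J → τ k = b k) ∧
    τ (2 * J + 1) = u ∧ τ (2 * J + 2) = v ∧ ∀ k, 2 * J + 3 ≤ k → τ k = b (k - 2) := by
  refine ⟨fun k => if k ≤ 2 * J then b k else if k = 2 * J + 1 then u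
    else if k = 2 * J + 2 then v else b (k - 2), ?_, ?_, ?_, ?_⟩
  · intro k hk
    simp only
    rw [if_pos hk]
  · simp only
    rw [if_neg (show ¬ 2 * J + 1 ≤ 2 * J by omega), if_pos trivial]
  · simp only
    rw [if_neg (show ¬ 2 * J + 2 ≤ 2 * J by omega),
      if_neg (show ¬ 2 * J + 2 = 2 * J + 1 by omega), if_pos trivial]
  · intro k hk
    simp only
    rw [if_neg (show ¬ k ≤ 2 * J by omega), if_neg (show ¬ k = 2 * J + 1 by omega),
      if_neg (show ¬ k = 2 * J + 2 by omega)]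

lemma exists_insert' (b : ℕ → ℝ) (a u : ℝ) (J : ℕ) : ∃ τ : ℕ → ℝ, τ 0 = a ∧
    (∀ k, k ≤ 2 * J → τ (k + 1) = b k) ∧
    τ (2 * J + 2) = u ∧ ∀ k, 2 * J + 3 ≤ k → τ k = b (k - 2) := by
  refine ⟨fun k => if k = 0 then a else if k ≤ 2 * J + 1 then b (k - 1)
    else if k = 2 * J + 2 then u else b (k - 2), ?_, ?_, ?_, ?_⟩
  · simp
  · intro k hk
    simp only
    rw [if_neg (show ¬ k + 1 = 0 by omega), if_pos (show k + 1 ≤ 2 * J + 1 by omega)]
    rfl
  · simp only
    rw [if_neg (show ¬ 2 * J + 2 = 0 by omega),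
      if_neg (show ¬ 2 * J + 2 ≤ 2 * J + 1 by omega), if_pos trivial]
  · intro k hk
    simp only
    rw [if_neg (show ¬ k = 0 by omega), if_neg (show ¬ k ≤ 2 * J + 1 by omega),
      if_neg (show ¬ k = 2 * J + 2 by omega)]

lemma strictMono_insert {b τ : ℕ → ℝ} {u v : ℝ} {J : ℕ} (hb : StrictMono b)
    (h1 : ∀ k, k ≤ 2 * J → τ k = b k) (h2 : τ (2 * J + 1) = u) (h3 : τ (2 * J + 2) = v)
    (h4 : ∀ k, 2 * J + 3 ≤ k → τ k = b (k - 2)) (c1 : b (2 * J) < u) (c2 : u < v)
    (c3 : v < b (2 * J + 1)) : StrictMono τ := by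
  apply strictMono_nat_of_lt_succ
  intro k
  rcases lt_trichotomy k (2 * J) with hk | hk | hk
  · rw [h1 k hk.le, h1 (k + 1) (by omega)]
    exact hb (Nat.lt_succ_self k)
  · subst hk
    rw [h1 _ le_rfl, h2]
    exact c1
  · rcases Nat.lt_or_ge k (2 * J + 2) with hk1 | hk1
    · obtain rfl : k = 2 * J + 1 := by omega
      rw [h2, h3]
      exact c2
    · rcases Nat.lt_or_ge k (2 * J + 3) with hk2 | hk2
      · obtain rfl : k = 2 * J + 2 := by omega
        rw [h3, h4 (2 * J + 2 + 1) (by omega), show 2 * J + 2 + 1 - 2 = 2 * J + 1 by omega]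
        exact c3
      · rw [h4 k hk2, h4 (k + 1) (by omega)]
        exact hb (by omega)

lemma strictMono_insert' {b τ : ℕ → ℝ} {a u : ℝ} {J : ℕ} (hb : StrictMono b)
    (h1 : τ 0 = a) (h2 : ∀ k, k ≤ 2 * J → τ (k + 1) = b k) (h3 : τ (2 * J + 2) = u)
    (h4 : ∀ k, 2 * J + 3 ≤ k → τ k = b (k - 2)) (c1 : a < b 0) (c2 : b (2 * J) < u)
    (c3 : u < b (2 * J + 1)) : StrictMono τ := by
  apply strictMono_nat_of_lt_succ
  intro k
  rcases Nat.eq_zero_or_pos k with hk | hk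
  · subst hk
    rw [h1, h2 0 (Nat.zero_le _)]
    exact c1
  · obtain ⟨m, rfl⟩ : ∃ m, k = m + 1 := ⟨k - 1, by omega⟩
    rcases lt_trichotomy m (2 * J) with hm | hm | hm
    · rw [h2 m hm.le, h2 (m + 1) (by omega)]
      exact hb (Nat.lt_succ_self m)
    · subst hm
      rw [h2 _ le_rfl, h3]
      exact c2
    · rcases Nat.lt_or_ge m (2 * J + 2) with hm1 | hm1
      · obtain rfl : m = 2 * J + 1 := by omega
        rw [show 2 * J + 1 + 1 = 2 * J + 2 by ring, h3, h4 (2 * J + 2 + 1) (by omega),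
          show 2 * J + 2 + 1 - 2 = 2 * J + 1 by omega]
        exact c3
      · rw [h4 (m + 1) (by omega), h4 (m + 1 + 1) (by omega)]
        exact hb (by omega)

/-- the data of a zigzag -/
lemma zig_data (h : Num p r ρ δ γ J) (i : ℕ) {g : ℝ} (hgi0 : gx r i ≤ g)
    (hz : g < (1 + δ) * gx r i) :
    bt r ρ δ i g (2 * J) = T r ρ δ (i + 2 * J + 2) + g ∧
    bt r ρ δ i g (2 * J + 1) =
      T r ρ δ (i + 2 * J + 2) + 2 * gx r (i + 2 * J + 2) + 2 * δ * gx r i - g ∧
    IsAt (zy r ρ δ) (T r ρ δ (i + 2 * J + 2) + 2 * (1 + δ) * gx r i - g) ((-1) ^ i * g) ∧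
    IsAt (zy r ρ δ) (T r ρ δ (i + 2 * J + 2) + 2 * δ * gx r i + g) ((-1) ^ i * g) := by
  have hP := h.toPar
  have hX0 := gx_pos h.hr i
  have hδ := h.hδ
  have hρ := h.hρ
  set K := i + 2 * J + 2 with hK
  have hρx : ρ * gx r K = gx r i := by
    rw [hK, show i + 2 * J + 2 = i + (2 * J + 2) by ring, gx_add]
    linear_combination gx r i * h.hρJ
  have hparK : K % 2 = i % 2 := by omega
  have haK : (1 + δ) * ρ * gx r K = (1 + δ) * gx r i := by rw [← hρx]; ring
  obtain ⟨a1, a2, a3⟩ := ab hP K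
  refine ⟨?_, ?_, ?_, ?_⟩
  · unfold bt
    rw [show i + 2 + 2 * J = K by omega, pow_parity (show (2 * J) % 2 = 0 % 2 by omega), pow_zero,
      if_neg (by rw [haK]; intro hh; linarith [hh.2])]
    ring
  · unfold bt
    rw [show i + 2 + (2 * J + 1) = K + 1 by omega,
      pow_parity (show (2 * J + 1) % 2 = 1 % 2 by omega), pow_one,
      if_neg (fun hh => by omega), T_succ, ← hρx]
    ring
  · have := pass2 hP (k := K) (g := g) (by linarith) (by linarith)
    rw [haK, pow_parity hparK] at this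
    convert this using 1
    ring
  · have := pass3 hP (k := K) (g := g) (by linarith) (by linarith)
    rw [pow_parity hparK, show δ * ρ * gx r K = δ * gx r i by rw [← hρx]; ring] at this
    convert this using 1
    ring

lemma zig_case1 (h : Num p r ρ δ γ J) {i : ℕ} {g : ℝ} (heq : gx r i = g)
    (hgi : g < gx r (i + 2)) (hz : g < (1 + δ) * gx r i) :
    expectedTime p (zy r ρ δ) ((-1) ^ i * g) ≤ ENNReal.ofReal (cc p γ * g) := by
  have hP := h.toPar
  have hX0 := gx_pos h.hr i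
  have hδ := h.hδ
  have hρ := h.hρ
  have hgi0 : gx r i ≤ g := heq.le
  have hg0 : 0 < g := lt_of_lt_of_le hX0 hgi0
  have hmono := bt_strictMono hP hg0 hgi
  obtain ⟨hb0, hb1, hp2, hp3⟩ := zig_data h i hgi0 hz
  have hxKi : gx r (i + 2) ≤ gx r (i + 2 * J + 2) := gx_mono h.hr (by omega)
  obtain ⟨τ, t1, t2, t3, t4⟩ := exists_insert' (bt r ρ δ i g)
    (T r ρ δ i + 2 * (δ * ρ * gx r i) + g) (T r ρ δ (i + 2 * J + 2) + 2 * (1 + δ) * gx r i - g) J
  have hδρ : 0 < δ * ρ * gx r i := by positivity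
  have hT0 := T_nonneg hP i
  have hTi := T_succ (r := r) (ρ := ρ) (δ := δ) i
  have hTi2 := T_succ (r := r) (ρ := ρ) (δ := δ) (i + 1)
  have hxi1 := gx_pos h.hr (i + 1)
  have hδρ1 : 0 < δ * ρ * gx r (i + 1) := by positivity
  have hb00 : T r ρ δ (i + 2) + g ≤ bt r ρ δ i g 0 := by
    have h5 := gx_pos h.hr (i + 2)
    unfold bt
    rw [pow_zero, one_mul, add_zero]
    have : 0 < δ * ρ * gx r (i + 2) := by positivity
    split_ifs <;> linarith
  have hfirst : T r ρ δ i + 2 * (δ * ρ * gx r i) + g < bt r ρ δ i g 0 := by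
    have e : T r ρ δ (i + 2) = T r ρ δ (i + 1 + 1) := rfl
    linarith
  have hδX : 0 < δ * gx r i := by positivity
  have hτ : StrictMono τ := by
    refine strictMono_insert' hmono t1 t2 t3 t4 hfirst ?_ ?_
    · rw [hb0]; linarith
    · rw [hb1]; linarith
  refine zig_bound h hgi0 hτ ?_ ?_ ?_ ?_ ?_ ?_
  · rw [t1]; linarith
  · intro k
    rcases Nat.eq_zero_or_pos k with hk | hk
    · rw [hk, t1]
      obtain ⟨a1, a2, a3⟩ := ab hP i
      exact pass3 hP (k := i) (g := g) (by linarith) heq.ge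
    · obtain ⟨m, rfl⟩ : ∃ m, k = m + 1 := ⟨k - 1, by omega⟩
      rcases Nat.lt_or_ge (2 * J) m with hm | hm
      · rcases Nat.lt_or_ge m (2 * J + 2) with hm1 | hm1
        · rw [show m + 1 = 2 * J + 2 by omega, t3]
          exact hp2
        · rw [t4 (m + 1) (by omega)]
          exact bt_pass hP hgi0 hgi _
      · rw [t2 m hm]
        exact bt_pass hP hgi0 hgi _
  · intro k hk
    rcases Nat.eq_zero_or_pos k with hk | hk
    · rw [hk, t1]
      exact hfirst.le
    · obtain ⟨m, rfl⟩ : ∃ m, k = m + 1 := ⟨k - 1, by omega⟩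
      rw [t2 m (by omega)]
      exact hmono.monotone (by omega)
  · rw [t2 (2 * J) le_rfl, hb0]
    linarith
  · rw [t3]
    linarith
  · intro k hk
    rw [t4 k hk]

lemma zig_case2 (h : Num p r ρ δ γ J) {i : ℕ} {g : ℝ} (hlt : gx r i < g)
    (hgi : g < gx r (i + 2)) (hz : g < (1 + δ) * gx r i) :
    expectedTime p (zy r ρ δ) ((-1) ^ i * g) ≤ ENNReal.ofReal (cc p γ * g) := by
  have hP := h.toPar
  have hX0 := gx_pos h.hr i
  have hδ := h.hδ
  have hρ := h.hρ
  have hgi0 : gx r i ≤ g := hlt.le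
  have hg0 : 0 < g := lt_of_lt_of_le hX0 hgi0
  have hmono := bt_strictMono hP hg0 hgi
  obtain ⟨hb0, hb1, hp2, hp3⟩ := zig_data h i hgi0 hz
  have hxKi : gx r (i + 2) ≤ gx r (i + 2 * J + 2) := gx_mono h.hr (by omega)
  obtain ⟨τ, t1, t2, t3, t4⟩ := exists_insert (bt r ρ δ i g)
    (T r ρ δ (i + 2 * J + 2) + 2 * (1 + δ) * gx r i - g)
    (T r ρ δ (i + 2 * J + 2) + 2 * δ * gx r i + g) J
  have hτ : StrictMono τ := by
    refine strictMono_insert hmono t1 t2 t3 t4 ?_ ?_ ?_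
    · rw [hb0]; linarith
    · linarith
    · rw [hb1]; linarith
  refine zig_bound h hgi0 hτ ?_ ?_ ?_ ?_ ?_ ?_
  · rw [t1 0 (Nat.zero_le _)]
    have h4 := T_nonneg hP (i + 2 + 0)
    have h5 := gx_pos h.hr (i + 2 + 0)
    have h6 : 0 < δ * ρ * gx r (i + 2 + 0) := by positivity
    unfold bt
    rw [pow_zero, one_mul]
    split_ifs <;> linarith
  · intro k
    rcases Nat.lt_or_ge (2 * J) k with hk | hk
    · rcases Nat.lt_or_ge k (2 * J + 2) with hk1 | hk1
      · rw [show k = 2 * J + 1 by omega, t2]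
        exact hp2
      · rcases Nat.lt_or_ge k (2 * J + 3) with hk2 | hk2
        · rw [show k = 2 * J + 2 by omega, t3]
          exact hp3
        · rw [t4 k hk2]
          exact bt_pass hP hgi0 hgi _
    · rw [t1 k hk]
      exact bt_pass hP hgi0 hgi _
  · intro k hk
    rw [t1 k (by omega)]
  · rw [t2]
  · rw [t3]
  · intro k hk
    rw [t4 k hk]

lemma bound_all' (h : Num p r ρ δ γ J) {i : ℕ} {g : ℝ} (hgi0 : gx r i ≤ g)
    (hgi : g < gx r (i + 2)) :
    expectedTime p (zy r ρ δ) ((-1) ^ i * g) ≤ ENNReal.ofReal (cc p γ * g) := by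
  rcases le_or_gt ((1 + δ) * gx r i) g with hz | hz
  · exact nonzig_bound h hz hgi
  · rcases eq_or_lt_of_le hgi0 with heq | hlt
    · exact zig_case1 h heq hgi hz
    · exact zig_case2 h hlt hgi hz

/-- the competitive ratio of the trajectory -/
theorem zig_ratio (h : Num p r ρ δ γ J) :
    competitiveRatio p (zy r ρ δ) ≤ ENNReal.ofReal (8 + p ^ 2 / (2 - p) - γ) := by
  have hp0 := h.hp0
  have h2p : 0 < 2 - p := by have := h.hp1; linarith
  have hr1 := h.hr
  have hcc : 8 + p ^ 2 / (2 - p) - γ = p * cc p γ := by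
    unfold cc
    field_simp
    ring
  have hcc0 : 0 ≤ cc p γ := by
    unfold cc
    have h1 := h.hγ8
    have : 0 ≤ 8 - γ := by linarith
    positivity
  rw [hcc, ratio_le_iff hp0 hcc0]
  have main : ∀ j0 : ℕ, (j0 = 0 ∨ j0 = 1) → ∀ g : ℝ, 1 ≤ g →
      expectedTime p (zy r ρ δ) ((-1) ^ j0 * g) ≤ ENNReal.ofReal (cc p γ * g) := by
    intro j0 hj0 g hg
    have hstart : gx r j0 ≤ g := by
      have : gx r j0 ≤ 1 := by
        unfold gx
        rw [div_le_one (by positivity)]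
        exact pow_le_pow_right₀ hr1.le (by omega)
      linarith
    have hex : ∃ m, g < gx r (j0 + 2 * m) := by
      obtain ⟨m, hm⟩ := pow_unbounded_of_one_lt (g * r ^ 2) hr1
      refine ⟨m, ?_⟩
      unfold gx
      rw [lt_div_iff₀ (by positivity)]
      exact hm.trans_le (pow_le_pow_right₀ hr1.le (by omega))
    classical
    have hspec := Nat.find_spec hex
    have hne : Nat.find hex ≠ 0 := by
      intro h
      rw [h, mul_zero, add_zero] at hspec
      linarith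
    obtain ⟨m, hm⟩ := Nat.exists_eq_succ_of_ne_zero hne
    have hmin : gx r (j0 + 2 * m) ≤ g := by
      by_contra h
      push Not at h
      have := Nat.find_min' hex h
      omega
    rw [hm, show j0 + 2 * m.succ = j0 + 2 * m + 2 by rw [Nat.succ_eq_add_one]; ring] at hspec
    have h1 := bound_all' h hmin hspec
    rwa [pow_parity (show (j0 + 2 * m) % 2 = j0 % 2 by omega)] at h1
  intro h' hh
  rcases le_total 0 h' with h1 | h1
  · have h2 := main 0 (Or.inl rfl) |h'| hh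
    rw [pow_zero, one_mul] at h2
    rwa [abs_of_nonneg h1] at h2 ⊢
  · have h2 := main 1 (Or.inr rfl) |h'| hh
    rw [pow_one, abs_of_nonpos h1] at h2
    rw [abs_of_nonpos h1]
    convert h2 using 2
    ring

end Pool.Agent.KS6_61.FS
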