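import Pool.Agent.KS6_61.FS.Cyc
import Pool.Agent.KS6_61.FS.Nine
import Pool.Agent.KS6_61.FS.ZigBound

/-!
# Faulty linear search: the order of the gap between all and cyclic monotone trajectories
-/

set_option autoImplicit false

open MeasureTheory
open scoped ENNReal

namespace Pool.Agent.KS6_61.FS

open Pool.Agent.Helper569.Faulty

variable {p : ℝ}

/-- the parameters of the zigzag trajectory -/
lemma exists_num (hp0 : 0 < p) (hp1 : p < 1) :
    ∃ (ρ : ℝ) (J : ℕ), Num p (2 / (2 - p)) ρ (p * (1 - p) / 10) (p * (1 - p) / 5) J := by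
  classical
  have h2p : 0 < 2 - p := by linarith
  have hq0 : 0 < 1 - p := by linarith
  set r := 2 / (2 - p) with hr
  have hr1 : 1 < r := by rw [hr, lt_div_iff₀ h2p]; linarith
  have hr0 : 0 < r := by linarith
  have hr2 : r * (2 - p) = 2 := by rw [hr, div_mul_cancel₀ _ h2p.ne']
  have hex : ∃ J : ℕ, 2 ≤ r ^ (2 * J + 2) := by
    obtain ⟨m, hm⟩ := pow_unbounded_of_one_lt 2 hr1
    exact ⟨m, hm.le.trans (pow_le_pow_right₀ hr1.le (by omega))⟩
  set J := Nat.find hex with hJ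
  have hJ1 : 2 ≤ r ^ (2 * J + 2) := Nat.find_spec hex
  have hJ2 : J ≠ 0 → r ^ (2 * J) < 2 := by
    intro h0
    by_contra hcon
    push Not at hcon
    have h1 : J ≤ J - 1 := by
      apply Nat.find_min' hex
      rw [show 2 * (J - 1) + 2 = 2 * J by omega]
      exact hcon
    omega
  set ρ := 1 / r ^ (2 * J + 2) with hρdef
  have hpow : 0 < r ^ (2 * J + 2) := by positivity
  have hρ0 : 0 < ρ := by positivity
  have hρJ : ρ * r ^ (2 * J + 2) = 1 := by rw [hρdef, one_div_mul_cancel hpow.ne']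
  have hρ2 : ρ ≤ 1 / 2 := by
    rw [hρdef]
    exact one_div_le_one_div_of_le (by norm_num) hJ1
  have hpq : p * (1 - p) ≤ 1 / 4 := by nlinarith [sq_nonneg (p - 1 / 2)]
  have hpq0 : 0 < p * (1 - p) := by positivity
  set δ := p * (1 - p) / 10 with hδ
  have hδ0 : 0 < δ := by positivity
  have hδ1 : δ ≤ 1 / 40 := by rw [hδ]; linarith
  have hrJ : J ≠ 0 → r ^ 2 < 2 := by
    intro h0
    exact lt_of_le_of_lt (pow_le_pow_right₀ hr1.le (by omega)) (hJ2 h0)
  have ht : (ρ * r) ^ 2 ≤ 1 / 2 := by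
    by_cases h0 : J = 0
    · rw [h0] at hρJ hJ1
      simp only [mul_zero, zero_add] at hρJ hJ1
      have : (ρ * r) ^ 2 = ρ := by
        have : (ρ * r) ^ 2 = ρ * (ρ * r ^ 2) := by ring
        rw [this, hρJ, mul_one]
      rw [this]
      exact hρ2
    · have h1 := hrJ h0
      have h2 : ρ ^ 2 ≤ (1 / 2) ^ 2 := pow_le_pow_left₀ hρ0.le hρ2 2
      have h3 : (ρ * r) ^ 2 = ρ ^ 2 * r ^ 2 := by ring
      rw [h3]
      have h4 : ρ ^ 2 * r ^ 2 ≤ (1 / 2) ^ 2 * 2 :=
        mul_le_mul h2 h1.le (by positivity) (by positivity)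
      linarith
  have ht0 : 0 < ρ * r := by positivity
  have ht1 : ρ * r ≤ 71 / 100 := by nlinarith
  refine ⟨ρ, J, ⟨⟨hr1, hρ0, hδ0, by nlinarith⟩, hp0, hp1, hr2, hρJ, by positivity, by linarith,
    ?_, ?_⟩⟩
  · have hγ : p * (1 - p) / 5 = 2 * δ := by rw [hδ]; ring
    rw [hγ]
    nlinarith
  · have hγ : p * (1 - p) / 5 = 2 * δ := by rw [hδ]; ring
    set Q := (1 - p) ^ (2 * J + 1) with hQ
    have hQ0 : 0 < Q := by positivity
    have hLHS1 : p * (1 - p) / 5 + 8 * δ * (ρ * r) ≤ 4 / 5 * (p * (1 - p)) := by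
      have : 8 * δ * (ρ * r) ≤ 8 * δ * (71 / 100) := mul_le_mul_of_nonneg_left ht1 (by positivity)
      rw [hδ] at this ⊢
      linarith
    have hLHS2 : p ^ 2 * Q * (2 + 2 * δ + 2 * δ * (1 - p)) ≤ p * Q * (p * (21 / 10)) := by
      have h1 : 2 + 2 * δ + 2 * δ * (1 - p) ≤ 21 / 10 := by nlinarith
      calc p ^ 2 * Q * (2 + 2 * δ + 2 * δ * (1 - p)) ≤ p ^ 2 * Q * (21 / 10) :=
            mul_le_mul_of_nonneg_left h1 (by positivity)
        _ = _ := by ring
    by_cases h0 : J = 0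
    · have hQ1 : Q = 1 - p := by rw [hQ, h0]; simp
      have h3 : (2 - p) ^ 2 / ρ = 4 := by
        rw [h0] at hρJ
        simp only [mul_zero, zero_add] at hρJ
        rw [div_eq_iff hρ0.ne']
        have : (2 - p) ^ 2 * (ρ * r ^ 2) = 4 * ρ := by
          have : (2 - p) ^ 2 * (ρ * r ^ 2) = (r * (2 - p)) ^ 2 * ρ := by ring
          rw [this, hr2]; norm_num
        rw [hρJ, mul_one] at this
        exact this
      have h4 : 2 * p * Q * (2 - p) ^ 2 / ρ = 8 * (p * (1 - p)) := by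
        rw [mul_div_assoc, h3, hQ1]; ring
      rw [h4]
      have h5 : p * Q * (p * (21 / 10)) ≤ p * (1 - p) * (21 / 10) := by
        rw [hQ1]
        apply mul_le_mul_of_nonneg_left _ hpq0.le
        linarith
      linarith
    · have hr22 := hrJ h0
      have h3 : 2 < (2 - p) ^ 2 := by
        have : r ^ 2 * (2 - p) ^ 2 = 4 := by rw [← mul_pow, hr2]; norm_num
        have h5 : 0 < (2 - p) ^ 2 := by positivity
        nlinarith
      have hp6 : p < 59 / 100 := by nlinarith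
      have h4 : (2 - p) ^ 2 / ρ ≥ 4 := by
        rw [ge_iff_le, le_div_iff₀ hρ0]
        nlinarith
      have h5 : 8 * (p * Q) ≤ 2 * p * Q * (2 - p) ^ 2 / ρ := by
        rw [mul_div_assoc]
        have h6 : 0 ≤ 2 * p * Q := by positivity
        have h7 := mul_le_mul_of_nonneg_left h4 h6
        linarith
      have hqr : 1 ≤ (1 - p) * r ^ 3 := by
        have e : (1 - p) * r ^ 3 * (2 - p) ^ 3 = 8 * (1 - p) := by
          have : (1 - p) * r ^ 3 * (2 - p) ^ 3 = (1 - p) * (r * (2 - p)) ^ 3 := by ring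
          rw [this, hr2]; ring
        have h6 : (2 - p) ^ 3 ≤ 8 * (1 - p) := by
          have h8 : 0 ≤ p * (4 - 6 * p + p ^ 2) := by
            apply mul_nonneg hp0.le
            nlinarith
          linarith
        have h7 : 0 < (2 - p) ^ 3 := by positivity
        rw [← e] at h6
        exact le_of_mul_le_mul_right (by linarith) h7
      have hQ8 : (1 - p) / 8 ≤ Q := by
        have h6 : 1 ≤ ((1 - p) * r ^ 3) ^ (2 * J) := one_le_pow₀ hqr
        have h7 : ((1 - p) * r ^ 3) ^ (2 * J) = (1 - p) ^ (2 * J) * (r ^ (2 * J)) ^ 3 := by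
          rw [mul_pow, ← pow_mul, ← pow_mul, mul_comm 3 (2 * J)]
        have h8 : (r ^ (2 * J)) ^ 3 ≤ 2 ^ 3 :=
          pow_le_pow_left₀ (by positivity) (hJ2 h0).le 3
        have h9 : (1 - p) ^ (2 * J) * (r ^ (2 * J)) ^ 3 ≤ (1 - p) ^ (2 * J) * 2 ^ 3 :=
          mul_le_mul_of_nonneg_left h8 (by positivity)
        rw [h7] at h6
        have h10 : 1 ≤ (1 - p) ^ (2 * J) * 8 := by linarith
        have h11 := mul_le_mul_of_nonneg_right h10 hq0.le
        rw [hQ, pow_succ]
        linarith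
      have h11 : p * (1 - p) ≤ 8 * (p * Q) := by
        have := mul_le_mul_of_nonneg_left hQ8 hp0.le
        linarith
      have h12 : p * Q * (p * (21 / 10)) ≤ p * Q * (59 / 100 * (21 / 10)) := by
        apply mul_le_mul_of_nonneg_left _ (by positivity)
        linarith
      have h13 : 0 < p * Q := by positivity
      linarith

theorem all_upper (hp0 : 0 < p) (hp1 : p < 1) :
    (⨅ (y : ℕ → ℝ) (_ : IsTrajectory y), competitiveRatio p y) ≤
      ENNReal.ofReal (8 + p ^ 2 / (2 - p) - p * (1 - p) / 5) := by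
  obtain ⟨ρ, J, h⟩ := exists_num hp0 hp1
  refine le_trans ?_ (zig_ratio h)
  exact iInf_le_of_le _ (iInf_le_of_le (isTrajectory_zy h.toPar) le_rfl)

theorem all_lower (hp0 : 0 < p) (hp1 : p < 1) :
    ENNReal.ofReal (max (9 * p) (2 * (1 + √(1 - p)) ^ 2)) ≤
      ⨅ (y : ℕ → ℝ) (_ : IsTrajectory y), competitiveRatio p y := by
  refine le_iInf fun y => le_iInf fun hyt => ?_
  by_cases htop : competitiveRatio p y = ⊤
  · rw [htop]; exact le_top
  · have h1 : competitiveRatio p y = ENNReal.ofReal (p * ((competitiveRatio p y).toReal / p)) := by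
      rw [mul_div_cancel₀ _ hp0.ne', ENNReal.ofReal_toReal htop]
    have h0 : 0 ≤ (competitiveRatio p y).toReal / p := by positivity
    have h2 := nine_lower hp0 hp1 h0 hyt h1.le
    have h3 := universal_lower hp0 hp1 h0 hyt h1.le
    rw [h1]
    apply ENNReal.ofReal_le_ofReal
    apply max_le
    · rw [mul_comm]
      exact mul_le_mul_of_nonneg_left h2 hp0.le
    · exact h3

lemma max_bound (hp0 : 0 < p) (hp1 : p < 1) :
    8 + p ^ 2 / (2 - p) ≤ max (9 * p) (2 * (1 + √(1 - p)) ^ 2) + 13 * p * (1 - p) := by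
  have h2p : 0 < 2 - p := by linarith
  have hq0 : 0 < 1 - p := by linarith
  rcases le_total p (59 / 100) with h | h
  · -- small `p`
    have h1 : 8 + p ^ 2 / (2 - p) ≤ 2 * (1 + √(1 - p)) ^ 2 + 13 * p * (1 - p) := by
      set s := √(1 - p) with hs
      have hs0 : 0 < s := Real.sqrt_pos.2 hq0
      have hss : s ^ 2 = 1 - p := Real.sq_sqrt hq0.le
      -- `s ≥ 2(1-p)/(2-p)`
      have hs1 : 2 * (1 - p) ≤ s * (2 - p) := by nlinarith [sq_nonneg (1 - s)]
      have e : 2 * (1 + s) ^ 2 = 2 + 4 * s + 2 * (1 - p) := by rw [← hss]; ring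
      rw [e]
      have h2 : p ^ 2 / (2 - p) ≤ 4 * s - 4 - 2 * p + 2 * p + 13 * p * (1 - p) - 2 * p := by
        rw [div_le_iff₀ h2p]
        have h3 : 0 ≤ p * (59 / 100 - p) := mul_nonneg hp0.le (by linarith)
        nlinarith
      linarith
    exact h1.trans (by gcongr; exact le_max_right _ _)
  · have h1 : 8 + p ^ 2 / (2 - p) ≤ 9 * p + 13 * p * (1 - p) := by
      have h2 : p ^ 2 / (2 - p) ≤ 9 * p + 13 * p * (1 - p) - 8 := by
        rw [div_le_iff₀ h2p]
        have h3 : 0 ≤ (p - 59 / 100) * (1 - p) := mul_nonneg (by linarith) hq0.le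
        nlinarith
      linarith
    exact h1.trans (by gcongr; exact le_max_left _ _)

theorem main (hp0 : 0 < p) (hp1 : p < 1) :
    (∃ y : ℕ → ℝ, IsTrajectory y ∧ IsCyclicMonotone y ∧
      competitiveRatio p y = ENNReal.ofReal (8 + p ^ 2 / (2 - p)) ∧
      ∀ z : ℕ → ℝ, IsTrajectory z → IsCyclicMonotone z →
        competitiveRatio p y ≤ competitiveRatio p z) ∧
    (∃ y : ℕ → ℝ, IsTrajectory y ∧ ∀ z : ℕ → ℝ, IsTrajectory z → IsCyclicMonotone z →
      competitiveRatio p y + ENNReal.ofReal (p * (1 - p) / 5) ≤ competitiveRatio p z) ∧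
    (∀ y : ℕ → ℝ, IsTrajectory y →
      ENNReal.ofReal (9 * p) ≤ competitiveRatio p y ∧
      ENNReal.ofReal (2 * (1 + √(1 - p)) ^ 2) ≤ competitiveRatio p y) ∧
    (⨅ (y : ℕ → ℝ) (_ : IsTrajectory y), competitiveRatio p y) +
        ENNReal.ofReal (p * (1 - p) / 5) ≤
      (⨅ (y : ℕ → ℝ) (_ : IsTrajectory y) (_ : IsCyclicMonotone y), competitiveRatio p y) ∧
    (⨅ (y : ℕ → ℝ) (_ : IsTrajectory y) (_ : IsCyclicMonotone y), competitiveRatio p y) ≤
      (⨅ (y : ℕ → ℝ) (_ : IsTrajectory y), competitiveRatio p y) +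
        ENNReal.ofReal (13 * p * (1 - p)) := by
  have h2p : 0 < 2 - p := by linarith
  have hq0 : 0 < 1 - p := by linarith
  have hpq0 : 0 < p * (1 - p) := by positivity
  have hpq : p * (1 - p) ≤ 1 / 4 := by nlinarith [sq_nonneg (p - 1 / 2)]
  have hval := cyc_value hp0 hp1
  have hlow : ∀ z : ℕ → ℝ, IsTrajectory z → IsCyclicMonotone z →
      ENNReal.ofReal (8 + p ^ 2 / (2 - p)) ≤ competitiveRatio p z := by
    intro z hz1 hz2
    rw [← hval]
    exact iInf_le_of_le z (iInf_le_of_le hz1 (iInf_le_of_le hz2 le_rfl))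
  have hall := all_lower hp0 hp1
  have hsum : ENNReal.ofReal (8 + p ^ 2 / (2 - p) - p * (1 - p) / 5) +
      ENNReal.ofReal (p * (1 - p) / 5) = ENNReal.ofReal (8 + p ^ 2 / (2 - p)) := by
    have h1 : 0 ≤ p ^ 2 / (2 - p) := by positivity
    rw [← ENNReal.ofReal_add (by linarith) (by linarith)]
    congr 1
    ring
  refine ⟨?_, ?_, ?_, ?_, ?_⟩
  · obtain ⟨y, h1, h2, h3⟩ := cyc_upper hp0 hp1
    have h4 := le_antisymm h3 (hlow y h1 h2)
    exact ⟨y, h1, h2, h4, fun z hz1 hz2 => h4.le.trans (hlow z hz1 hz2)⟩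
  · obtain ⟨ρ, J, h⟩ := exists_num hp0 hp1
    refine ⟨_, isTrajectory_zy h.toPar, fun z hz1 hz2 => ?_⟩
    refine le_trans ?_ (hlow z hz1 hz2)
    rw [← hsum]
    exact add_le_add (zig_ratio h) le_rfl
  · intro y hy
    have h1 : ENNReal.ofReal (max (9 * p) (2 * (1 + √(1 - p)) ^ 2)) ≤ competitiveRatio p y :=
      hall.trans (iInf_le_of_le y (iInf_le_of_le hy le_rfl))
    exact ⟨(ENNReal.ofReal_le_ofReal (le_max_left _ _)).trans h1,
      (ENNReal.ofReal_le_ofReal (le_max_right _ _)).trans h1⟩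
  · rw [hval, ← hsum]
    exact add_le_add (all_upper hp0 hp1) le_rfl
  · rw [hval]
    calc ENNReal.ofReal (8 + p ^ 2 / (2 - p)) ≤
        ENNReal.ofReal (max (9 * p) (2 * (1 + √(1 - p)) ^ 2) + 13 * p * (1 - p)) :=
          ENNReal.ofReal_le_ofReal (max_bound hp0 hp1)
      _ = ENNReal.ofReal (max (9 * p) (2 * (1 + √(1 - p)) ^ 2)) +
          ENNReal.ofReal (13 * p * (1 - p)) := by
          apply ENNReal.ofReal_add
          · exact le_max_of_le_left (by positivity)
          · have : 13 * p * (1 - p) = 13 * (p * (1 - p)) := by ring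
            rw [this]
            positivity
      _ ≤ _ := add_le_add hall le_rfl

end Pool.Agent.KS6_61.FS
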