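import Pool.Graph.R_seed8.Helper569.FaultyFinal

/-!
# Faulty linear search: a self-similar trajectory with delayed zigzags

Excursion `k` goes to `(1+δ)ρ x_k`, back to `ρ x_k`, and then to `x_k`, where `x_k = r^k / r^2`.
-/

set_option autoImplicit false

open MeasureTheory
open scoped ENNReal

namespace Pool.Agent.KS6_61.FS

open Pool.Agent.Helper569.Faulty

variable {r ρ δ p : ℝ}

/-- the trajectory -/
noncomputable def zy (r ρ δ : ℝ) : ℕ → ℝ
  | 0 => 0
  | n + 1 => if n % 3 = 0 then (-1) ^ (n / 3) * ((1 + δ) * ρ * gx r (n / 3))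
      else if n % 3 = 1 then (-1) ^ (n / 3) * (ρ * gx r (n / 3)) else (-1) ^ (n / 3) * gx r (n / 3)

/-- the start of the excursion `k` -/
noncomputable def T (r ρ δ : ℝ) (k : ℕ) : ℝ := S (fun j => (1 + δ * ρ) * gx r j) k

/-- the conditions on the parameters -/
structure Par (r ρ δ : ℝ) : Prop where
  hr : 1 < r
  hρ : 0 < ρ
  hδ : 0 < δ
  hlt : (1 + δ) * ρ < 1

lemma T_zero : T r ρ δ 0 = 0 := S_zero _

lemma T_succ (k : ℕ) : T r ρ δ (k + 1) = T r ρ δ k + 2 * ((1 + δ * ρ) * gx r k) := S_succ _ k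

lemma gx_succ (r : ℝ) (n : ℕ) : gx r (n + 1) = r * gx r n := by
  unfold gx; rw [pow_succ]; ring

lemma gx_add (r : ℝ) (n m : ℕ) : gx r (n + m) = r ^ m * gx r n := by
  unfold gx; rw [pow_add]; ring

lemma gx_mono (hr : 1 < r) : Monotone (gx r) := by
  apply monotone_nat_of_le_succ
  intro n
  rw [gx_succ]
  nlinarith [gx_pos hr n]

lemma T_nonneg (h : Par r ρ δ) (k : ℕ) : 0 ≤ T r ρ δ k := by
  apply S_nonneg
  intro j
  have h1 := gx_pos h.hr j
  have h2 := h.hρ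
  have h3 := h.hδ
  positivity

lemma T_mono (h : Par r ρ δ) : Monotone (T r ρ δ) := by
  apply S_mono
  intro j
  have h1 := gx_pos h.hr j
  have h2 := h.hρ
  have h3 := h.hδ
  positivity

lemma T_le (h : Par r ρ δ) (n : ℕ) : T r ρ δ n ≤ 2 * (1 + δ * ρ) / (r - 1) * gx r n := by
  have h1 := S_gx_le h.hr n
  have h2 : T r ρ δ n = (1 + δ * ρ) * S (gx r) n := by
    unfold T S
    rw [← Finset.mul_sum]
    ring
  have h3 := h.hρ
  have h4 := h.hδ
  have h5 := h.hr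
  rw [h2]
  calc (1 + δ * ρ) * S (gx r) n ≤ (1 + δ * ρ) * (2 / (r - 1) * gx r n) :=
        mul_le_mul_of_nonneg_left h1 (by positivity)
    _ = _ := by ring

lemma zy_a (k : ℕ) : zy r ρ δ (3 * k + 1) = (-1) ^ k * ((1 + δ) * ρ * gx r k) := by
  have h1 : (3 * k) % 3 = 0 := by omega
  have h2 : (3 * k) / 3 = k := by omega
  rw [zy, if_pos h1, h2]

lemma zy_b (k : ℕ) : zy r ρ δ (3 * k + 2) = (-1) ^ k * (ρ * gx r k) := by
  have h0 : ¬ (3 * k + 1) % 3 = 0 := by omega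
  have h1 : (3 * k + 1) % 3 = 1 := by omega
  have h2 : (3 * k + 1) / 3 = k := by omega
  rw [show 3 * k + 2 = (3 * k + 1) + 1 by ring, zy, if_neg h0, if_pos h1, h2]

lemma zy_c (k : ℕ) : zy r ρ δ (3 * k + 3) = (-1) ^ k * gx r k := by
  have h0 : ¬ (3 * k + 2) % 3 = 0 := by omega
  have h1 : ¬ (3 * k + 2) % 3 = 1 := by omega
  have h2 : (3 * k + 2) / 3 = k := by omega
  rw [show 3 * k + 3 = (3 * k + 2) + 1 by ring, zy, if_neg h0, if_neg h1, h2]

lemma ab (h : Par r ρ δ) (k : ℕ) : 0 < ρ * gx r k ∧ ρ * gx r k < (1 + δ) * ρ * gx r k ∧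
    (1 + δ) * ρ * gx r k < gx r k := by
  have h1 := gx_pos h.hr k
  have h2 := h.hρ
  have h3 := h.hδ
  have h4 := h.hlt
  refine ⟨by positivity, ?_, ?_⟩
  · have : 0 < δ * (ρ * gx r k) := by positivity
    nlinarith
  · nlinarith

lemma turn_b_of (h : Par r ρ δ) {k : ℕ}
    (ha : turnTime (zy r ρ δ) (3 * k + 1) = T r ρ δ k + (1 + δ) * ρ * gx r k) :
    turnTime (zy r ρ δ) (3 * k + 2) =
      T r ρ δ k + 2 * ((1 + δ) * ρ * gx r k) - ρ * gx r k := by
  obtain ⟨h1, h2, h3⟩ := ab h k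
  rw [turnTime_succ, ha, zy_a, zy_b, ← mul_sub, abs_sign, abs_of_neg (by linarith)]
  ring

lemma turn_c_of (h : Par r ρ δ) {k : ℕ}
    (ha : turnTime (zy r ρ δ) (3 * k + 1) = T r ρ δ k + (1 + δ) * ρ * gx r k) :
    turnTime (zy r ρ δ) (3 * k + 3) =
      T r ρ δ k + 2 * ((1 + δ) * ρ * gx r k) - 2 * (ρ * gx r k) + gx r k := by
  obtain ⟨h1, h2, h3⟩ := ab h k
  rw [turnTime_succ, turn_b_of h ha, zy_b, zy_c, ← mul_sub, abs_sign, abs_of_pos (by linarith)]
  ring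

lemma turn_a (h : Par r ρ δ) (k : ℕ) :
    turnTime (zy r ρ δ) (3 * k + 1) = T r ρ δ k + (1 + δ) * ρ * gx r k := by
  induction k with
  | zero =>
    obtain ⟨h1, h2, h3⟩ := ab h 0
    rw [turnTime_succ, zy_a, T_zero]
    have : turnTime (zy r ρ δ) (3 * 0) = 0 := by simp [turnTime]
    rw [this]
    change 0 + |(-1) ^ 0 * ((1 + δ) * ρ * gx r 0) - 0| = _
    rw [pow_zero, one_mul, sub_zero, abs_of_pos (by linarith)]
  | succ k ih =>
    obtain ⟨h1, h2, h3⟩ := ab h k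
    obtain ⟨h4, h5, h6⟩ := ab h (k + 1)
    rw [turnTime_succ, show 3 * (k + 1) = 3 * k + 3 by ring, turn_c_of h ih, zy_c,
      show 3 * k + 3 + 1 = 3 * (k + 1) + 1 by ring, zy_a, T_succ,
      show (-1 : ℝ) ^ (k + 1) * ((1 + δ) * ρ * gx r (k + 1)) - (-1) ^ k * gx r k =
        (-1) ^ k * (-((1 + δ) * ρ * gx r (k + 1) + gx r k)) by rw [pow_succ]; ring,
      abs_sign, abs_neg, abs_of_pos (by linarith)]
    ring

lemma turn_b' (h : Par r ρ δ) (k : ℕ) : turnTime (zy r ρ δ) (3 * k + 2) =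
    T r ρ δ k + 2 * ((1 + δ) * ρ * gx r k) - ρ * gx r k := turn_b_of h (turn_a h k)

lemma turn_c' (h : Par r ρ δ) (k : ℕ) : turnTime (zy r ρ δ) (3 * k + 3) =
    T r ρ δ k + 2 * ((1 + δ) * ρ * gx r k) - 2 * (ρ * gx r k) + gx r k :=
  turn_c_of h (turn_a h k)

lemma pass1 (h : Par r ρ δ) {k : ℕ} {g : ℝ} (hg : 0 < g) (hg2 : g ≤ (1 + δ) * ρ * gx r k) :
    IsAt (zy r ρ δ) (T r ρ δ k + g) ((-1) ^ k * g) := by
  cases k with
  | zero =>
    have h1 := isAt_segment (zy r ρ δ) 0 (x := g) (by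
      rw [show zy r ρ δ 0 = 0 from rfl, show (0 : ℕ) + 1 = 3 * 0 + 1 by norm_num, zy_a, pow_zero,
        one_mul, Set.mem_uIcc]
      left
      exact ⟨hg.le, hg2⟩)
    rw [show zy r ρ δ 0 = 0 from rfl, sub_zero, abs_of_pos hg] at h1
    have h2 : turnTime (zy r ρ δ) 0 = 0 := by simp [turnTime]
    rw [h2] at h1
    rw [T_zero, pow_zero, one_mul]
    exact h1
  | succ k =>
    have hx := gx_pos h.hr k
    have h1 := isAt_segment (zy r ρ δ) (3 * k + 3) (x := (-1) ^ (k + 1) * g) (by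
      rw [show 3 * k + 3 + 1 = 3 * (k + 1) + 1 by ring, zy_a, zy_c,
        show (-1 : ℝ) ^ k * gx r k = (-1) ^ (k + 1) * (-gx r k) by rw [pow_succ]; ring]
      apply mem_uIcc_sign
      rw [Set.mem_uIcc]
      left
      constructor <;> linarith)
    rw [turn_c' h, zy_c, show (-1 : ℝ) ^ (k + 1) * g - (-1) ^ k * gx r k =
      (-1) ^ (k + 1) * (g + gx r k) by rw [pow_succ]; ring, abs_sign,
      abs_of_pos (by linarith)] at h1
    convert h1 using 1
    rw [T_succ]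
    ring

lemma pass2 (h : Par r ρ δ) {k : ℕ} {g : ℝ} (hg : ρ * gx r k ≤ g)
    (hg2 : g ≤ (1 + δ) * ρ * gx r k) :
    IsAt (zy r ρ δ) (T r ρ δ k + 2 * ((1 + δ) * ρ * gx r k) - g) ((-1) ^ k * g) := by
  have h1 := isAt_segment (zy r ρ δ) (3 * k + 1) (x := (-1) ^ k * g) (by
    rw [zy_a, zy_b]
    apply mem_uIcc_sign
    rw [Set.mem_uIcc]
    right
    constructor <;> linarith)
  rw [turn_a h, zy_a, ← mul_sub, abs_sign, abs_of_nonpos (by linarith)] at h1
  convert h1 using 1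
  ring

lemma pass3 (h : Par r ρ δ) {k : ℕ} {g : ℝ} (hg : ρ * gx r k ≤ g) (hg2 : g ≤ gx r k) :
    IsAt (zy r ρ δ) (T r ρ δ k + 2 * (δ * ρ * gx r k) + g) ((-1) ^ k * g) := by
  have h1 := isAt_segment (zy r ρ δ) (3 * k + 2) (x := (-1) ^ k * g) (by
    rw [zy_b, zy_c]
    apply mem_uIcc_sign
    rw [Set.mem_uIcc]
    left
    constructor <;> linarith)
  rw [turn_b' h, zy_b, ← mul_sub, abs_sign, abs_of_nonneg (by linarith)] at h1
  convert h1 using 1
  ring

lemma pass4 (h : Par r ρ δ) {k : ℕ} {g : ℝ} (hg : 0 < g) (hg2 : g ≤ gx r k) :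
    IsAt (zy r ρ δ) (T r ρ δ (k + 1) - g) ((-1) ^ k * g) := by
  obtain ⟨h4, h5, h6⟩ := ab h (k + 1)
  have h1 := isAt_segment (zy r ρ δ) (3 * k + 3) (x := (-1) ^ k * g) (by
    rw [show 3 * k + 3 + 1 = 3 * (k + 1) + 1 by ring, zy_a, zy_c,
      show (-1 : ℝ) ^ (k + 1) * ((1 + δ) * ρ * gx r (k + 1)) =
        (-1) ^ k * (-((1 + δ) * ρ * gx r (k + 1))) by rw [pow_succ]; ring]
    apply mem_uIcc_sign
    rw [Set.mem_uIcc]
    right
    constructor <;> linarith)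
  rw [turn_c' h, zy_c, ← mul_sub, abs_sign, abs_of_nonpos (by linarith)] at h1
  convert h1 using 1
  rw [T_succ]
  ring

lemma isTrajectory_zy (h : Par r ρ δ) : IsTrajectory (zy r ρ δ) := by
  have hs2 : ∀ k : ℕ, ((-1 : ℝ) ^ k) * ((-1 : ℝ) ^ k) = 1 := by
    intro k
    rw [← mul_pow]; simp
  refine ⟨rfl, ?_, ?_, ?_⟩
  · obtain ⟨h1, h2, h3⟩ := ab h 0
    rw [show (1 : ℕ) = 3 * 0 + 1 by norm_num, zy_a, pow_zero, one_mul]
    linarith
  · intro n
    set k := n / 3 with hk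
    have hmod : n % 3 = 0 ∨ n % 3 = 1 ∨ n % 3 = 2 := by omega
    obtain ⟨a1, a2, a3⟩ := ab h k
    obtain ⟨b1, b2, b3⟩ := ab h (k + 1)
    rcases hmod with hm | hm | hm
    · rw [show n + 2 = 3 * k + 2 by omega, show n + 1 = 3 * k + 1 by omega,
        show n = 3 * k by omega, zy_b, zy_a]
      rcases k with _ | k
      · rw [show zy r ρ δ (3 * 0) = 0 from rfl, pow_zero, one_mul, one_mul, sub_zero]
        nlinarith
      · rw [show 3 * (k + 1) = 3 * k + 3 by ring, zy_c]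
        have hx := gx_pos h.hr k
        have e : ((-1 : ℝ) ^ (k + 1) * (ρ * gx r (k + 1)) -
            (-1) ^ (k + 1) * ((1 + δ) * ρ * gx r (k + 1))) *
            ((-1) ^ (k + 1) * ((1 + δ) * ρ * gx r (k + 1)) - (-1) ^ k * gx r k) =
            ((-1) ^ k * (-1) ^ k) * ((ρ * gx r (k + 1) - (1 + δ) * ρ * gx r (k + 1)) *
              ((1 + δ) * ρ * gx r (k + 1) + gx r k)) := by
          rw [pow_succ]; ring
        rw [e, hs2, one_mul]
        apply mul_neg_of_neg_of_pos <;> linarith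
    · rw [show n + 2 = 3 * k + 3 by omega, show n + 1 = 3 * k + 2 by omega,
        show n = 3 * k + 1 by omega, zy_c, zy_b, zy_a]
      have e : ((-1 : ℝ) ^ k * gx r k - (-1) ^ k * (ρ * gx r k)) *
          ((-1) ^ k * (ρ * gx r k) - (-1) ^ k * ((1 + δ) * ρ * gx r k)) =
          ((-1) ^ k * (-1) ^ k) * ((gx r k - ρ * gx r k) *
            (ρ * gx r k - (1 + δ) * ρ * gx r k)) := by ring
      rw [e, hs2, one_mul]
      apply mul_neg_of_pos_of_neg <;> linarith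
    · rw [show n + 2 = 3 * (k + 1) + 1 by omega, show n + 1 = 3 * k + 3 by omega,
        show n = 3 * k + 2 by omega, zy_a, zy_c, zy_b]
      have e : ((-1 : ℝ) ^ (k + 1) * ((1 + δ) * ρ * gx r (k + 1)) - (-1) ^ k * gx r k) *
          ((-1) ^ k * gx r k - (-1) ^ k * (ρ * gx r k)) =
          ((-1) ^ k * (-1) ^ k) * (-((1 + δ) * ρ * gx r (k + 1) + gx r k) *
            (gx r k - ρ * gx r k)) := by
        rw [pow_succ]; ring
      rw [e, hs2, one_mul]
      apply mul_neg_of_neg_of_pos <;> linarith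
  · intro hsum
    have h1 := hsum.tendsto_atTop_zero
    have h2 : Filter.Tendsto (fun m : ℕ => 3 * m + 3) Filter.atTop Filter.atTop := by
      apply Filter.tendsto_atTop_mono (f := fun m : ℕ => m)
      · intro m; omega
      · exact Filter.tendsto_id
    have h3 := h1.comp h2
    have h4 : ∀ m : ℕ, gx r 0 ≤ ((fun i => |zy r ρ δ (i + 1) - zy r ρ δ i|) ∘
        (fun m : ℕ => 3 * m + 3)) m := by
      intro m
      simp only [Function.comp]
      obtain ⟨b1, b2, b3⟩ := ab h (m + 1)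
      rw [show 3 * m + 3 + 1 = 3 * (m + 1) + 1 by ring, zy_a, zy_c,
        show (-1 : ℝ) ^ (m + 1) * ((1 + δ) * ρ * gx r (m + 1)) - (-1) ^ m * gx r m =
        (-1) ^ m * (-((1 + δ) * ρ * gx r (m + 1) + gx r m)) by rw [pow_succ]; ring,
        abs_sign, abs_neg]
      have a1 : gx r 0 ≤ gx r m := gx_mono h.hr (Nat.zero_le m)
      have a2 := gx_pos h.hr m
      rw [abs_of_pos (by linarith)]
      linarith
    have h5 := ge_of_tendsto' h3 h4
    linarith [gx_pos h.hr 0]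

open Classical in
/-- the basic list of the passes over `g ∈ [x_i, x_{i+2})` -/
noncomputable def bt (r ρ δ : ℝ) (i : ℕ) (g : ℝ) (k : ℕ) : ℝ :=
  T r ρ δ (i + 2 + k) + (-1) ^ k * g +
    (if k % 2 = 0 ∧ (1 + δ) * ρ * gx r (i + 2 + k) < g then 2 * (δ * ρ * gx r (i + 2 + k)) else 0)

lemma bt_pass (h : Par r ρ δ) {i : ℕ} {g : ℝ} (hgi0 : gx r i ≤ g) (hgi : g < gx r (i + 2))
    (k : ℕ) : IsAt (zy r ρ δ) (bt r ρ δ i g k) ((-1) ^ i * g) := by
  have hg : 0 < g := (gx_pos h.hr i).trans_le hgi0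
  unfold bt
  have hmod : k % 2 = 0 ∨ k % 2 = 1 := by omega
  rcases hmod with hk | hk
  · have hp : (-1 : ℝ) ^ k = 1 := by rw [pow_parity (show k % 2 = 0 % 2 by omega), pow_zero]
    have hpar : (i + 2 + k) % 2 = i % 2 := by omega
    rw [hp, one_mul, ← pow_parity hpar]
    by_cases hc : (1 + δ) * ρ * gx r (i + 2 + k) < g
    · rw [if_pos ⟨hk, hc⟩]
      obtain ⟨a1, a2, a3⟩ := ab h (i + 2 + k)
      have h1 := pass3 h (k := i + 2 + k) (g := g) (by linarith)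
        (hgi.le.trans (gx_mono h.hr (by omega)))
      convert h1 using 1
      ring
    · rw [if_neg (fun hh => hc hh.2), add_zero]
      push Not at hc
      exact pass1 h hg hc
  · have hp : (-1 : ℝ) ^ k = -1 := by rw [pow_parity (show k % 2 = 1 % 2 by omega), pow_one]
    obtain ⟨m, rfl⟩ : ∃ m, k = m + 1 := ⟨k - 1, by omega⟩
    have hpar : (i + 2 + m) % 2 = i % 2 := by omega
    rw [hp, if_neg (fun hh => by omega), add_zero, ← pow_parity hpar]
    have h1 := pass4 h (k := i + 2 + m) hg (hgi.le.trans (gx_mono h.hr (by omega)))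
    convert h1 using 1
    ring_nf

lemma bt_strictMono (h : Par r ρ δ) {i : ℕ} {g : ℝ} (hg : 0 < g) (hgi : g < gx r (i + 2)) :
    StrictMono (bt r ρ δ i g) := by
  apply strictMono_nat_of_lt_succ
  intro k
  unfold bt
  have hx := gx_pos h.hr (i + 2 + k)
  have h2 := h.hρ
  have h3 := h.hδ
  have hδρ : 0 < δ * ρ * gx r (i + 2 + k) := by positivity
  have hmod : k % 2 = 0 ∨ k % 2 = 1 := by omega
  rw [show i + 2 + (k + 1) = i + 2 + k + 1 by ring, T_succ]
  rcases hmod with hk | hk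
  · have hp : (-1 : ℝ) ^ k = 1 := by rw [pow_parity (show k % 2 = 0 % 2 by omega), pow_zero]
    rw [pow_succ, hp, if_neg (fun hh : (k + 1) % 2 = 0 ∧ _ => by omega)]
    have h4 : gx r (i + 2) ≤ gx r (i + 2 + k) := gx_mono h.hr (by omega)
    split_ifs <;> linarith
  · have hp : (-1 : ℝ) ^ k = -1 := by rw [pow_parity (show k % 2 = 1 % 2 by omega), pow_one]
    rw [pow_succ, hp, if_neg (fun hh : k % 2 = 0 ∧ _ => by omega)]
    have h5 : 0 < δ * ρ * gx r (i + 2 + k + 1) := by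
      have := gx_pos h.hr (i + 2 + k + 1)
      positivity
    split_ifs <;> linarith

/-- the constant in the upper bound for the passes -/
noncomputable def Lam (r ρ δ : ℝ) : ℝ := 2 * (1 + δ * ρ) / (r - 1) + 2 * (δ * ρ)

lemma T_le_Lam (h : Par r ρ δ) (n : ℕ) : T r ρ δ n ≤ Lam r ρ δ * gx r n := by
  have h1 := T_le h n
  have hx := gx_pos h.hr n
  have h2 := h.hρ
  have h3 := h.hδ
  have : 0 < 2 * (δ * ρ) * gx r n := by positivity
  unfold Lam
  linarith

lemma bt_le (h : Par r ρ δ) (i : ℕ) (g : ℝ) (k : ℕ) :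
    bt r ρ δ i g k ≤ Lam r ρ δ * gx r (i + 2) * r ^ k + (-1) ^ k * g := by
  unfold bt
  have h1 := T_le h (i + 2 + k)
  have hx := gx_pos h.hr (i + 2 + k)
  have h2 := h.hρ
  have h3 := h.hδ
  have h4 : 0 < 2 * (δ * ρ) * gx r (i + 2 + k) := by positivity
  have h5 : Lam r ρ δ * gx r (i + 2) * r ^ k = Lam r ρ δ * gx r (i + 2 + k) := by
    rw [gx_add r (i + 2) k]; ring
  rw [h5]
  unfold Lam
  split_ifs <;> linarith

end Pool.Agent.KS6_61.FS
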